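import Mathlib

namespace Pool.Agent.H994.Butterfly

open Matrix MeasureTheory Finset
open scoped Kronecker

/-- The modes `0, …, 2^K - 1`. -/
abbrev Mode (K : ℕ) : Type := Fin (2 ^ K)

/-- The pairs `i < j` of modes, which index the basis `e_i ∧ e_j` of the exterior square. -/
abbrev Pr (K : ℕ) : Type := {p : Mode K × Mode K // p.1 < p.2}

/-- The gate: a rotation by `θ` times `diag(e^{iφ/2}, e^{-iφ/2})`. -/
noncomputable def gate (θ φ : ℝ) : Matrix (Fin 2) (Fin 2) ℂ :=
  !![(Real.cos θ : ℂ), (Real.sin θ : ℂ); -(Real.sin θ : ℂ), (Real.cos θ : ℂ)] *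
    Matrix.diagonal ![Complex.exp (Complex.I * φ / 2), Complex.exp (-(Complex.I * φ / 2))]

/-- The binary digit of the mode `i` in position `l`. -/
def dig {K : ℕ} (l : ℕ) (i : Mode K) : Fin 2 := if (i : ℕ).testBit l then 1 else 0

/-- The lower mode of the pair `{i, i + 2^l}` (with `i` of digit zero in position `l`) that
contains the given mode. -/
def low {K : ℕ} (l : ℕ) (i : Mode K) : Mode K :=
  if (i : ℕ).testBit l then ⟨i - 2 ^ l, lt_of_le_of_lt (Nat.sub_le _ _) i.isLt⟩ else i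

/-- The product of the disjoint gates of the layer of stride `2^l`: the pair with lower mode `p`
carries the gate with angles `(θ, φ) = ω p`. -/
noncomputable def layer {K : ℕ} (l : ℕ) (ω : Mode K → ℝ × ℝ) : Matrix (Mode K) (Mode K) ℂ :=
  fun i j => if low l i = low l j then
    gate (ω (low l i)).1 (ω (low l i)).2 (dig l i) (dig l j) else 0

/-- The product `U_j ⋯ U_1` of the first `j` layers (strides `1, 2, …, 2^(j-1)`). -/
noncomputable def circuit {K : ℕ} : (j : ℕ) → (Fin j → Mode K → ℝ × ℝ) →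
    Matrix (Mode K) (Mode K) ℂ
  | 0, _ => 1
  | j + 1, ω => layer j (ω (Fin.last j)) * circuit j (fun i => ω i.castSucc)

/-- The uniform probability measure on `[0, 2π)`. -/
noncomputable def unif : Measure ℝ :=
  (ENNReal.ofReal (2 * Real.pi))⁻¹ • (volume.restrict (Set.Ico 0 (2 * Real.pi)))

/-- The law of the angles of one layer. -/
noncomputable def layerLaw (K : ℕ) : Measure (Mode K → ℝ × ℝ) :=
  Measure.pi (fun _ => unif.prod unif)

/-- The law of all angles of `j` layers: independent and uniform. -/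
noncomputable def law (K j : ℕ) : Measure (Fin j → Mode K → ℝ × ℝ) :=
  Measure.pi (fun _ => layerLaw K)

/-- The second exterior power of a matrix in the basis `e_i ∧ e_j`, `i < j` (the matrix of its
two by two minors). -/
def ext2 {K : ℕ} (W : Matrix (Mode K) (Mode K) ℂ) : Matrix (Pr K) (Pr K) ℂ :=
  fun p q => W p.1.1 q.1.1 * W p.1.2 q.1.2 - W p.1.1 q.1.2 * W p.1.2 q.1.1

/-- The two-copy twirl `Φ_n` of the unitary butterfly in the second exterior power. -/
noncomputable def Phi (K : ℕ) (Y : Matrix (Pr K × Pr K) (Pr K × Pr K) ℂ) :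
    Matrix (Pr K × Pr K) (Pr K × Pr K) ℂ :=
  fun a b => ∫ ω, ((ext2 (circuit K ω) ⊗ₖ ext2 (circuit K ω)) * Y *
    (ext2 (circuit K ω) ⊗ₖ ext2 (circuit K ω))ᴴ) a b ∂(law K K)

/-- `z` is an eigenvalue of the map `F`. -/
def IsEigenvalue {M : Type} [AddCommMonoid M] [Module ℂ M] (F : M → M) (z : ℂ) : Prop :=
  ∃ Y : M, Y ≠ 0 ∧ F Y = z • Y

/-- The property asked about in Q1. -/
def DesignProperty : Prop :=
  ∃ C : ℝ, 0 < C ∧ ∃ K₀ : ℕ, ∀ K : ℕ, K₀ ≤ K →
    Module.finrank ℂ (Submodule.span ℂ {Y | Phi K Y = Y}) = 3 ∧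
    ∀ z : ℂ, IsEigenvalue (Phi K) z → z ≠ 1 → ‖z‖ ≤ C / (2 : ℝ) ^ K

end Pool.Agent.H994.Butterfly
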