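import Mathlib
import Pool.Agent.H994.Butterfly.Defs

namespace Pool.Agent.H994.Butterfly

open Matrix MeasureTheory Finset
open scoped Kronecker

/-! ### Binary digits -/

lemma xor_flip0 (q r j : ℕ) (hr : r < 2^j) : (2^j*(2*q) + r) ^^^ 2^j = 2^j*(2*q+1) + r := by
  apply Nat.eq_of_testBit_eq
  intro i
  rw [Nat.testBit_xor, Nat.testBit_two_pow_mul_add _ hr, Nat.testBit_two_pow_mul_add _ hr,
    Nat.testBit_two_pow]
  rcases lt_trichotomy i j with h | h | h
  · rw [if_pos h, if_pos h]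
    have : ¬ j = i := by omega
    simp [this]
  · subst h
    simp
  · rw [if_neg (by omega), if_neg (by omega)]
    obtain ⟨k, rfl⟩ : ∃ k, i = j + (k+1) := ⟨i - j - 1, by omega⟩
    have h1 : j + (k+1) - j = k + 1 := by omega
    rw [h1, Nat.testBit_add_one, Nat.testBit_add_one]
    have h2 : 2*q/2 = q := by omega
    have h3 : (2*q+1)/2 = q := by omega
    rw [h2, h3]
    have : ¬ j = j + (k+1) := by omega
    simp [this]

lemma xor_flip1 (q r j : ℕ) (hr : r < 2^j) : (2^j*(2*q+1) + r) ^^^ 2^j = 2^j*(2*q) + r := by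
  rw [← xor_flip0 q r j hr, Nat.xor_assoc, Nat.xor_self, Nat.xor_zero]

lemma split_digit (j d : ℕ) : ∃ q r, r < 2^j ∧
    ((d.testBit j = false ∧ d = 2^j*(2*q) + r) ∨ (d.testBit j = true ∧ d = 2^j*(2*q+1) + r)) := by
  have hpos : 0 < 2^j := by positivity
  refine ⟨d / 2^j / 2, d % 2^j, Nat.mod_lt _ hpos, ?_⟩
  have h1 := Nat.div_add_mod d (2^j)
  rw [Nat.testBit_eq_decide_div_mod_eq]
  rcases Nat.mod_two_eq_zero_or_one (d / 2^j) with h | h
  · left
    refine ⟨by simp [h], ?_⟩
    have : 2 * (d / 2^j / 2) = d / 2^j := by omega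
    rw [this]; omega
  · right
    refine ⟨by simp [h], ?_⟩
    have : 2 * (d / 2^j / 2) + 1 = d / 2^j := by omega
    rw [this]; omega

lemma xor_of_false {d j : ℕ} (h : d.testBit j = false) : d ^^^ 2^j = d + 2^j := by
  obtain ⟨q, r, hr, ⟨-, hd⟩ | ⟨h', -⟩⟩ := split_digit j d
  · rw [hd, xor_flip0 q r j hr]; ring
  · rw [h] at h'; exact absurd h' (by decide)

lemma xor_of_true {d j : ℕ} (h : d.testBit j = true) : d ^^^ 2^j = d - 2^j ∧ 2^j ≤ d := by
  obtain ⟨q, r, hr, ⟨h', -⟩ | ⟨-, hd⟩⟩ := split_digit j d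
  · rw [h] at h'; exact absurd h' (by decide)
  · have e : 2^j*(2*q+1) + r = (2^j*(2*q) + r) + 2^j := by ring
    rw [hd, xor_flip1 q r j hr, e]
    exact ⟨by omega, by omega⟩

/-! ### The combinatorial operator -/

/-- One layer acting on the difference functions. -/
noncomputable def stp (e : ℕ) (v : ℕ → ℂ) : ℕ → ℂ := fun d =>
  if d = 0 then (3/4) * v 0 + (1/4) * v e else (1/2) * v d + (1/2) * v (d ^^^ e)

/-- The composition of the first `j` steps. -/
noncomputable def Nn : ℕ → (ℕ → ℂ) → (ℕ → ℂ)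
  | 0, v => v
  | j + 1, v => stp (2 ^ j) (Nn j v)

/-- Class sums. -/
noncomputable def cls (v : ℕ → ℂ) : ℕ → ℂ
  | 0 => v 0
  | s + 1 => ∑ u ∈ range (2 ^ s), v (2 ^ s + u)

/-- The values of `Nn j v` below `2^j` in terms of the class sums. -/
noncomputable def beta : ℕ → (ℕ → ℂ) → ℕ → ℂ
  | 0, S, _ => S 0
  | j + 1, S, d => if d = 0 then (3/4) * beta j S 0 + (1/4) * ((1/2)^j * S (j+1))
      else (1/2) * beta j S (d % 2^j) + (1/2) * ((1/2)^j * S (j+1))

lemma Nn_high (j : ℕ) (v : ℕ → ℂ) : ∀ q : ℕ, 0 < q → ∀ r : ℕ, r < 2^j →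
    Nn j v (2^j * q + r) = (1/2)^j * ∑ u ∈ range (2^j), v (2^j * q + u) := by
  induction j with
  | zero => intro q hq r hr; simp at hr; subst hr; simp [Nn]
  | succ j ih =>
    intro q hq r hr
    have h2 : (2:ℕ)^(j+1) = 2^j + 2^j := by rw [pow_succ]; ring
    have hpos : 0 < 2^j := by positivity
    rw [Nn, stp, if_neg (by positivity)]
    have key : ∀ r' < 2^j, Nn j v (2^(j+1)*q + r') = (1/2)^j * ∑ u ∈ range (2^j), v (2^(j+1)*q + u) := by
      intro r' hr'
      have := ih (2*q) (by omega) r' hr'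
      have e : 2^j*(2*q) = 2^(j+1)*q := by rw [pow_succ]; ring
      rw [e] at this
      exact this
    have key2 : ∀ r' < 2^j, Nn j v (2^(j+1)*q + (2^j + r')) =
        (1/2)^j * ∑ u ∈ range (2^j), v (2^(j+1)*q + (2^j + u)) := by
      intro r' hr'
      have := ih (2*q+1) (by omega) r' hr'
      have e : ∀ x, 2^j*(2*q+1) + x = 2^(j+1)*q + (2^j + x) := by intro x; rw [pow_succ]; ring
      simp only [e] at this
      exact this
    have hsplit : ∑ u ∈ range (2^(j+1)), v (2^(j+1)*q + u) =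
        ∑ u ∈ range (2^j), v (2^(j+1)*q + u) + ∑ u ∈ range (2^j), v (2^(j+1)*q + (2^j + u)) := by
      rw [h2, sum_range_add]
    rw [hsplit]
    have hxor : ∀ r' < 2^j, (2^(j+1)*q + r') ^^^ 2^j = 2^(j+1)*q + (2^j + r') := by
      intro r' hr'
      have := xor_flip0 q r' j hr'
      have e : 2^(j+1)*q + r' = 2^j*(2*q) + r' := by rw [pow_succ]; ring
      rw [e, this, pow_succ]; ring
    have hxor2 : ∀ r' < 2^j, (2^(j+1)*q + (2^j + r')) ^^^ 2^j = 2^(j+1)*q + r' := by
      intro r' hr'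
      rw [← hxor r' hr', Nat.xor_assoc, Nat.xor_self, Nat.xor_zero]
    rcases Nat.lt_or_ge r (2^j) with h | h
    · rw [hxor r h, key r h, key2 r h]; ring
    · obtain ⟨r', rfl⟩ := Nat.exists_eq_add_of_le h
      have h' : r' < 2^j := by omega
      rw [hxor2 r' h', key r' h', key2 r' h']; ring

lemma Nn_low (j : ℕ) (v : ℕ → ℂ) : ∀ d : ℕ, d < 2^j → Nn j v d = beta j (cls v) d := by
  induction j with
  | zero => intro d hd; simp at hd; subst hd; simp [Nn, beta, cls]
  | succ j ih =>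
    intro d hd
    have h2 : (2:ℕ)^(j+1) = 2^j + 2^j := by rw [pow_succ]; ring
    have hpos : 0 < 2^j := by positivity
    have hcls : ∀ r < 2^j, Nn j v (2^j + r) = (1/2)^j * cls v (j+1) := by
      intro r hr
      have := Nn_high j v 1 one_pos r hr
      simpa [cls] using this
    rw [Nn, stp, beta]
    by_cases h0 : d = 0
    · rw [if_pos h0, if_pos h0, ih 0 hpos]
      have := hcls 0 hpos
      rw [add_zero] at this
      rw [this]
    · rw [if_neg h0, if_neg h0]
      rcases Nat.lt_or_ge d (2^j) with h | h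
      · have hx : d ^^^ 2^j = 2^j + d := by
          have := xor_flip0 0 d j h
          simpa using this
        rw [hx, hcls d h, Nat.mod_eq_of_lt h, ih d h]
      · obtain ⟨r, rfl⟩ := Nat.exists_eq_add_of_le h
        have hr : r < 2^j := by omega
        have hx : (2^j + r) ^^^ 2^j = r := by
          have := xor_flip1 0 r j hr
          simpa using this
        rw [hx, hcls r hr, ih r hr]
        have : (2^j + r) % 2^j = r := by rw [Nat.add_mod_left, Nat.mod_eq_of_lt hr]
        rw [this]; ring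

lemma beta_congr (j : ℕ) {S S' : ℕ → ℂ} (h : ∀ s ≤ j, S s = S' s) (d : ℕ) :
    beta j S d = beta j S' d := by
  induction j generalizing d with
  | zero => simp [beta, h 0 le_rfl]
  | succ j ih =>
    have ih' := ih (fun s hs => h s (by omega))
    rw [beta, beta, ih', ih', h (j+1) le_rfl]

lemma beta_zero (j : ℕ) (d : ℕ) {S : ℕ → ℂ} (h : ∀ s ≤ j, S s = 0) : beta j S d = 0 := by
  induction j generalizing d with
  | zero => simp [beta, h 0 le_rfl]
  | succ j ih =>
    have ih' := ih (d := 0) (fun s hs => h s (by omega))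
    have ih'' := ih (d := d % 2^j) (fun s hs => h s (by omega))
    rw [beta, ih', ih'', h (j+1) le_rfl]; simp

lemma beta_add (j : ℕ) (S S' : ℕ → ℂ) (d : ℕ) :
    beta j (fun s => S s + S' s) d = beta j S d + beta j S' d := by
  induction j generalizing d with
  | zero => simp [beta]
  | succ j ih =>
    simp only [beta, ih]
    split_ifs <;> ring

lemma beta_smul (j : ℕ) (c : ℂ) (S : ℕ → ℂ) (d : ℕ) :
    beta j (fun s => c * S s) d = c * beta j S d := by
  induction j generalizing d with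
  | zero => simp [beta]
  | succ j ih =>
    simp only [beta, ih]
    split_ifs <;> ring

/-- delta function at `d`. -/
noncomputable def dl (d : ℕ) : ℕ → ℂ := fun x => if x = d then 1 else 0

lemma cls_dl_low {j d s : ℕ} (hd : d < 2^j) (hs : j + 1 ≤ s) : cls (dl d) s = 0 := by
  obtain ⟨t, rfl⟩ := Nat.exists_eq_add_of_le' (show 1 ≤ s by omega)
  rw [cls]
  apply sum_eq_zero
  intro u _
  have : 2^j ≤ 2^t := Nat.pow_le_pow_right (by norm_num) (by omega)
  rw [dl, if_neg (by omega)]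

lemma cls_dl_high {j d s : ℕ} (hd : 2^j ≤ d) (hs : s ≤ j) : cls (dl d) s = 0 := by
  cases s with
  | zero =>
    have : 0 < 2^j := by positivity
    rw [cls, dl, if_neg (by omega)]
  | succ t =>
    rw [cls]
    apply sum_eq_zero
    intro u hu
    rw [mem_range] at hu
    have : 2^(t+1) ≤ 2^j := Nat.pow_le_pow_right (by norm_num) (by omega)
    have h2 : (2:ℕ)^(t+1) = 2^t + 2^t := by rw [pow_succ]; ring
    rw [dl, if_neg (by omega)]

lemma cls_dl_eq {j d : ℕ} (hd : 2^j ≤ d) (hd' : d < 2^(j+1)) : cls (dl d) (j+1) = 1 := by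
  rw [cls, sum_eq_single (d - 2^j)]
  · rw [dl, if_pos (by omega)]
  · intro b _ hb
    rw [dl, if_neg (by omega)]
  · intro h
    rw [mem_range] at h
    have h2 : (2:ℕ)^(j+1) = 2^j + 2^j := by rw [pow_succ]; ring
    omega

lemma beta_diag_zero (j : ℕ) : beta j (cls (dl 0)) 0 = (3/4)^j := by
  induction j with
  | zero => simp [beta, cls, dl]
  | succ j ih =>
    have : cls (dl 0) (j+1) = 0 := cls_dl_low (j := 0) (by norm_num) (by omega)
    rw [beta, if_pos rfl, ih, this]; ring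

lemma beta_diag (j : ℕ) : ∀ d : ℕ, 0 < d → d < 2^j → beta j (cls (dl d)) d = (1/2)^j := by
  induction j with
  | zero => intro d h0 hd; simp at hd; omega
  | succ j ih =>
    intro d h0 hd
    rw [beta, if_neg (by omega)]
    rcases Nat.lt_or_ge d (2^j) with h | h
    · rw [Nat.mod_eq_of_lt h, ih d h0 h, cls_dl_low h le_rfl]; ring
    · rw [cls_dl_eq h hd, beta_zero j _ (fun s hs => cls_dl_high h hs)]; ring

/-! ### Moments of one gate -/

instance unif_prob : IsProbabilityMeasure unif := by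
  constructor
  rw [unif, Measure.smul_apply, Measure.restrict_apply_univ, Real.volume_Ico, sub_zero, smul_eq_mul]
  apply ENNReal.inv_mul_cancel
  · simp [Real.pi_pos]
  · exact ENNReal.ofReal_ne_top

lemma integral_unif {E : Type*} [NormedAddCommGroup E] [NormedSpace ℝ E] (f : ℝ → E) :
    ∫ x, f x ∂unif = (2 * Real.pi)⁻¹ • ∫ x in (0:ℝ)..(2 * Real.pi), f x := by
  rw [unif, integral_smul_measure, intervalIntegral.integral_of_le (by positivity),
    integral_Ico_eq_integral_Ioc, ENNReal.toReal_inv, ENNReal.toReal_ofReal (by positivity)]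

lemma mom_c2 : ∫ x, (Real.cos x)^2 ∂unif = 1/2 := by
  rw [integral_unif, integral_cos_sq]
  have := Real.pi_pos
  simp
  field_simp

lemma mom_s2 : ∫ x, (Real.sin x)^2 ∂unif = 1/2 := by
  rw [integral_unif, integral_sin_sq]
  have := Real.pi_pos
  simp
  field_simp

lemma mom_c2s2 : ∫ x, (Real.sin x)^2 * (Real.cos x)^2 ∂unif = 1/8 := by
  rw [integral_unif, integral_sin_sq_mul_cos_sq]
  have := Real.pi_pos
  have h : Real.sin (4 * (2 * Real.pi)) = 0 := by
    have : 4 * (2 * Real.pi) = (8:ℕ) * Real.pi := by push_cast; ring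
    rw [this, Real.sin_nat_mul_pi]
  rw [h]
  simp
  field_simp

lemma mom_c4 : ∫ x, (Real.cos x)^4 ∂unif = 3/8 := by
  have e : ∀ x, (Real.cos x)^4 = (Real.cos x)^2 - (Real.sin x)^2 * (Real.cos x)^2 := by
    intro x
    have := Real.sin_sq_add_cos_sq x
    have h : (Real.sin x)^2 = 1 - (Real.cos x)^2 := by linarith
    rw [h]; ring
  have i1 : Integrable (fun x => (Real.cos x)^2) unif := by
    apply Integrable.of_bound (by fun_prop) 1
    filter_upwards with x
    rw [Real.norm_eq_abs, abs_of_nonneg (sq_nonneg _)]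
    exact Real.cos_sq_le_one x
  have i2 : Integrable (fun x => (Real.sin x)^2 * (Real.cos x)^2) unif := by
    apply Integrable.of_bound (by fun_prop) 1
    filter_upwards with x
    rw [Real.norm_eq_abs, abs_of_nonneg (by positivity)]
    have h1 := Real.cos_sq_le_one x
    have h2 := Real.sin_sq_le_one x
    nlinarith [sq_nonneg (Real.cos x), sq_nonneg (Real.sin x)]
  simp_rw [e]
  rw [integral_sub i1 i2, mom_c2, mom_c2s2]; norm_num

lemma mom_s4 : ∫ x, (Real.sin x)^4 ∂unif = 3/8 := by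
  have e : ∀ x, (Real.sin x)^4 = (Real.sin x)^2 - (Real.sin x)^2 * (Real.cos x)^2 := by
    intro x
    have := Real.sin_sq_add_cos_sq x
    have h : (Real.cos x)^2 = 1 - (Real.sin x)^2 := by linarith
    rw [h]; ring
  have i1 : Integrable (fun x => (Real.sin x)^2) unif := by
    apply Integrable.of_bound (by fun_prop) 1
    filter_upwards with x
    rw [Real.norm_eq_abs, abs_of_nonneg (sq_nonneg _)]
    exact Real.sin_sq_le_one x
  have i2 : Integrable (fun x => (Real.sin x)^2 * (Real.cos x)^2) unif := by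
    apply Integrable.of_bound (by fun_prop) 1
    filter_upwards with x
    rw [Real.norm_eq_abs, abs_of_nonneg (by positivity)]
    have h1 := Real.cos_sq_le_one x
    have h2 := Real.sin_sq_le_one x
    nlinarith [sq_nonneg (Real.cos x), sq_nonneg (Real.sin x)]
  simp_rw [e]
  rw [integral_sub i1 i2, mom_s2, mom_c2s2]; norm_num

lemma mom_exp (k : ℤ) (hk : k ≠ 0) : ∫ x, Complex.exp (Complex.I * k * x) ∂unif = 0 := by
  rw [integral_unif]
  have hc : Complex.I * k ≠ 0 := mul_ne_zero Complex.I_ne_zero (by exact_mod_cast hk)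
  rw [integral_exp_mul_complex hc]
  have : Complex.exp (Complex.I * k * ((2 * Real.pi : ℝ) : ℂ)) = 1 := by
    rw [Complex.exp_eq_one_iff]
    exact ⟨k, by push_cast; ring⟩
  rw [this]; simp

/-- The rotation part of the gate. -/
noncomputable def rot (θ : ℝ) : Matrix (Fin 2) (Fin 2) ℝ :=
  !![Real.cos θ, Real.sin θ; -Real.sin θ, Real.cos θ]

/-- The phase part of the gate: `sg 0 = 1`, `sg 1 = -1`. -/
def sg (b : Fin 2) : ℤ := if b = 0 then 1 else -1

lemma gate_apply (θ φ : ℝ) (a b : Fin 2) :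
    gate θ φ a b = (rot θ a b : ℂ) * Complex.exp (Complex.I * (sg b / 2 : ℂ) * φ) := by
  rw [gate, Matrix.mul_diagonal]
  fin_cases a <;> fin_cases b <;> simp [rot, sg] <;> left <;> congr 1 <;> ring

lemma conj_gate (θ φ : ℝ) (a b : Fin 2) :
    (starRingEnd ℂ) (gate θ φ a b) = (rot θ a b : ℂ) * Complex.exp (-(Complex.I * (sg b / 2 : ℂ) * φ)) := by
  rw [gate_apply, map_mul, Complex.conj_ofReal, ← Complex.exp_conj]
  congr 2
  have h2 : (starRingEnd ℂ) 2 = 2 := map_ofNat _ 2
  fin_cases b <;> simp [sg, h2]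

lemma mom2 (a b c : Fin 2) :
    ∫ z, gate z.1 z.2 a b * (starRingEnd ℂ) (gate z.1 z.2 a c) ∂(unif.prod unif) =
      if b = c then 1/2 else 0 := by
  have e : ∀ z : ℝ × ℝ, gate z.1 z.2 a b * (starRingEnd ℂ) (gate z.1 z.2 a c) =
      ((rot z.1 a b * rot z.1 a c : ℝ) : ℂ) *
        Complex.exp (Complex.I * ((sg b - sg c) / 2 : ℂ) * z.2) := by
    intro z
    rw [conj_gate, gate_apply]
    push_cast
    have : Complex.exp (Complex.I * ((sg b - sg c) / 2 : ℂ) * z.2) =
      Complex.exp (Complex.I * (sg b / 2 : ℂ) * z.2) * Complex.exp (-(Complex.I * (sg c / 2 : ℂ) * z.2)) := by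
      rw [← Complex.exp_add]; congr 1; ring
    rw [this]; ring
  simp_rw [e]
  rw [integral_prod_mul (μ := unif) (ν := unif)
    (fun x : ℝ => ((rot x a b * rot x a c : ℝ) : ℂ))
    (fun y : ℝ => Complex.exp (Complex.I * ((sg b - sg c) / 2 : ℂ) * y))]
  by_cases hbc : b = c
  · subst hbc
    rw [if_pos rfl, integral_complex_ofReal]
    have h1 : ∫ x, rot x a b * rot x a b ∂unif = 1/2 := by
      fin_cases a <;> fin_cases b <;> simp [rot, ← sq, mom_c2, mom_s2]
    rw [h1]
    simp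
  · rw [if_neg hbc]
    have h2 : ∫ y : ℝ, Complex.exp (Complex.I * ((sg b - sg c) / 2 : ℂ) * y) ∂unif = 0 := by
      fin_cases b <;> fin_cases c <;> first | exact absurd rfl hbc | skip
      · have := mom_exp 1 (by norm_num)
        simp only [sg] at *
        norm_num at *
        exact this
      · have := mom_exp (-1) (by norm_num)
        simp only [sg] at *
        norm_num at *
        exact this
    rw [h2, mul_zero]

lemma mom_phase (b1 b2 b3 b4 : Fin 2) :
    ∫ y : ℝ, Complex.exp (Complex.I * ((sg b1 + sg b2 - sg b3 - sg b4) / 2 : ℂ) * y) ∂unif =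
      if sg b1 + sg b2 = sg b3 + sg b4 then 1 else 0 := by
  by_cases h : sg b1 + sg b2 = sg b3 + sg b4
  · rw [if_pos h]
    have h' : ((sg b1 : ℂ) + sg b2 - sg b3 - sg b4) = 0 := by
      have : ((sg b1 + sg b2 : ℤ) : ℂ) = ((sg b3 + sg b4 : ℤ) : ℂ) := by rw [h]
      push_cast at this
      linear_combination this
    rw [h']
    simp
  · rw [if_neg h]
    obtain ⟨k, hk⟩ : ∃ k : ℤ, sg b1 + sg b2 - sg b3 - sg b4 = 2 * k := by
      refine ⟨(sg b1 + sg b2 - sg b3 - sg b4) / 2, ?_⟩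
      revert b1 b2 b3 b4
      decide
    have hk0 : k ≠ 0 := by
      intro h0; rw [h0] at hk; apply h; linarith
    have h' : ((sg b1 : ℂ) + sg b2 - sg b3 - sg b4) / 2 = k := by
      have : ((sg b1 + sg b2 - sg b3 - sg b4 : ℤ) : ℂ) = ((2 * k : ℤ) : ℂ) := by rw [hk]
      push_cast at this
      rw [this]; ring
    rw [h']
    exact mom_exp k hk0

lemma mom4 (a a' b1 b2 b3 b4 : Fin 2) :
    ∫ z, gate z.1 z.2 a b1 * gate z.1 z.2 a' b2 * (starRingEnd ℂ) (gate z.1 z.2 a b3) *
      (starRingEnd ℂ) (gate z.1 z.2 a' b4) ∂(unif.prod unif) =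
      if sg b1 + sg b2 = sg b3 + sg b4 then
        (if b1 = b2 then (if a = a' then 3/8 else 1/8) else
          (if a = a' then 1/8 else if b1 = b3 then 3/8 else -1/8)) else 0 := by
  have e : ∀ z : ℝ × ℝ, gate z.1 z.2 a b1 * gate z.1 z.2 a' b2 * (starRingEnd ℂ) (gate z.1 z.2 a b3) *
      (starRingEnd ℂ) (gate z.1 z.2 a' b4) =
      ((rot z.1 a b1 * rot z.1 a' b2 * rot z.1 a b3 * rot z.1 a' b4 : ℝ) : ℂ) *
        Complex.exp (Complex.I * ((sg b1 + sg b2 - sg b3 - sg b4) / 2 : ℂ) * z.2) := by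
    intro z
    rw [conj_gate, conj_gate, gate_apply, gate_apply]
    push_cast
    have : Complex.exp (Complex.I * ((sg b1 + sg b2 - sg b3 - sg b4) / 2 : ℂ) * z.2) =
      Complex.exp (Complex.I * (sg b1 / 2 : ℂ) * z.2) * Complex.exp (Complex.I * (sg b2 / 2 : ℂ) * z.2)
       * Complex.exp (-(Complex.I * (sg b3 / 2 : ℂ) * z.2)) * Complex.exp (-(Complex.I * (sg b4 / 2 : ℂ) * z.2)) := by
      rw [← Complex.exp_add, ← Complex.exp_add, ← Complex.exp_add]; congr 1; ring
    rw [this]; ring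
  simp_rw [e]
  rw [integral_prod_mul (μ := unif) (ν := unif)
    (fun x : ℝ => ((rot x a b1 * rot x a' b2 * rot x a b3 * rot x a' b4 : ℝ) : ℂ))
    (fun y : ℝ => Complex.exp (Complex.I * ((sg b1 + sg b2 - sg b3 - sg b4) / 2 : ℂ) * y))]
  rw [mom_phase, integral_complex_ofReal]
  by_cases h : sg b1 + sg b2 = sg b3 + sg b4
  · rw [if_pos h, if_pos h, mul_one]
    have i0 : ∫ x, Real.cos x * Real.cos x * Real.cos x * Real.cos x ∂unif = 3/8 := by
      rw [← mom_c4]; congr 1; ext x; ring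
    have i1 : ∫ x, Real.sin x * Real.sin x * Real.sin x * Real.sin x ∂unif = 3/8 := by
      rw [← mom_s4]; congr 1; ext x; ring
    have key : ∀ f : ℝ → ℝ, (∀ x, f x = (Real.sin x)^2 * (Real.cos x)^2) → ∫ x, f x ∂unif = 1/8 := by
      intro f hf; rw [← mom_c2s2]; congr 1; ext x; exact hf x
    have key' : ∀ f : ℝ → ℝ, (∀ x, f x = -((Real.sin x)^2 * (Real.cos x)^2)) → ∫ x, f x ∂unif = -(1/8) := by
      intro f hf; rw [← mom_c2s2, ← integral_neg]; congr 1; ext x; exact hf x
    have key4 : ∀ f : ℝ → ℝ, (∀ x, f x = (Real.cos x)^4) → ∫ x, f x ∂unif = 3/8 := by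
      intro f hf; rw [← mom_c4]; congr 1; ext x; exact hf x
    have key4' : ∀ f : ℝ → ℝ, (∀ x, f x = (Real.sin x)^4) → ∫ x, f x ∂unif = 3/8 := by
      intro f hf; rw [← mom_s4]; congr 1; ext x; exact hf x
    have real_part : ∫ x, rot x a b1 * rot x a' b2 * rot x a b3 * rot x a' b4 ∂unif =
        (if b1 = b2 then (if a = a' then 3/8 else 1/8) else
          (if a = a' then 1/8 else if b1 = b3 then 3/8 else -(1/8)) : ℝ) := by
      revert h
      fin_cases b1 <;> fin_cases b2 <;> fin_cases b3 <;> fin_cases b4 <;> intro h <;>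
        first
        | (exfalso; revert h; decide)
        | (fin_cases a <;> fin_cases a' <;> simp only [rot] <;> norm_num <;>
            first
            | (refine key4 _ ?_; intro x; ring1)
            | (refine key4' _ ?_; intro x; ring1)
            | (refine key _ ?_; intro x; ring1)
            | (refine key' _ ?_; intro x; ring1))
    rw [real_part]
    split_ifs <;> push_cast <;> ring
  · rw [if_neg h, if_neg h, mul_zero]
/-! ### Pairs of modes -/

section pairs
variable {K : ℕ}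

lemma low_val {l : ℕ} (i : Mode K) :
    ((low l i : Mode K) : ℕ) = if (i:ℕ).testBit l then (i:ℕ) ^^^ 2^l else i := by
  unfold low
  split_ifs with h
  · rw [(xor_of_true h).1]
  · rfl

/-- The mode of digit `b` in the pair of `i`. -/
def st {l : ℕ} (hl : l < K) (b : Fin 2) (i : Mode K) : Mode K :=
  if b = 0 then low l i else ⟨(low l i : ℕ) ^^^ 2^l,
    Nat.xor_lt_two_pow (low l i).isLt (Nat.pow_lt_pow_right (by norm_num) hl)⟩

/-- The partner mode. -/
def bar {l : ℕ} (hl : l < K) (i : Mode K) : Mode K :=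
  ⟨(i : ℕ) ^^^ 2^l, Nat.xor_lt_two_pow i.isLt (Nat.pow_lt_pow_right (by norm_num) hl)⟩

lemma low_testBit {l : ℕ} (i : Mode K) : ((low l i : Mode K) : ℕ).testBit l = false := by
  rw [low_val]
  split_ifs with h
  · rw [Nat.testBit_xor, h, Nat.testBit_two_pow_self]; rfl
  · simpa using h

lemma dig_st {l : ℕ} (hl : l < K) (b : Fin 2) (i : Mode K) : dig l (st hl b i) = b := by
  unfold dig st
  fin_cases b
  · simp [low_testBit]
  · simp [Nat.testBit_xor, low_testBit, Nat.testBit_two_pow_self]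

lemma low_low {l : ℕ} (i : Mode K) : low l (low l i) = low l i := by
  apply Fin.ext
  rw [low_val (low l i), low_testBit]; simp

lemma low_st {l : ℕ} (hl : l < K) (b : Fin 2) (i : Mode K) : low l (st hl b i) = low l i := by
  unfold st
  split_ifs with h
  · exact low_low i
  · apply Fin.ext
    rw [low_val]
    simp only [Nat.testBit_xor, low_testBit, Nat.testBit_two_pow_self]
    simp [Nat.xor_assoc]

lemma st_dig {l : ℕ} (hl : l < K) (i : Mode K) : st hl (dig l i) i = i := by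
  unfold st dig
  by_cases h : (i:ℕ).testBit l = true
  · rw [if_pos h, if_neg (by decide)]
    apply Fin.ext
    simp only [low_val, h, if_true, Nat.xor_assoc, Nat.xor_self, Nat.xor_zero]
  · rw [if_neg h, if_pos rfl]
    apply Fin.ext
    rw [low_val, if_neg h]

lemma st_congr {l : ℕ} (hl : l < K) (b : Fin 2) {i j : Mode K} (h : low l i = low l j) :
    st hl b i = st hl b j := by
  unfold st; simp only [h]

lemma bar_eq {l : ℕ} (hl : l < K) (i : Mode K) : bar hl i = st hl (1 - dig l i) i := by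
  unfold st dig bar
  by_cases h : (i:ℕ).testBit l = true
  · rw [if_pos h, if_pos (by decide)]
    apply Fin.ext
    simp only [low_val, h, if_true]
  · rw [if_neg h, if_neg (by decide)]
    apply Fin.ext
    simp only [low_val, h]
    simp

lemma sum_st {l : ℕ} (hl : l < K) {M : Type*} [AddCommMonoid M] (i : Mode K) (f : Mode K → M) :
    ∑ b : Fin 2, f (st hl b i) = f i + f (bar hl i) := by
  rw [Fin.sum_univ_two, bar_eq]
  have h := st_dig hl i
  rcases Fin.exists_fin_two.1 ⟨dig l i, rfl⟩ with h1 | h1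
  · rw [h1] at h ⊢
    rw [h]; rfl
  · rw [h1] at h ⊢
    rw [h, add_comm]; rfl

lemma low_eq_iff {l : ℕ} (hl : l < K) (i j : Mode K) : low l i = low l j ↔ (j = i ∨ j = bar hl i) := by
  constructor
  · intro h
    have hj := st_dig hl j
    rw [st_congr hl _ h.symm] at hj
    have hi := st_dig hl i
    by_cases hd : dig l j = dig l i
    · left; rw [← hj, hd, hi]
    · right
      rw [bar_eq, ← hj]
      congr 1
      revert hd
      generalize dig l j = a
      generalize dig l i = b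
      revert a b
      decide
  · rintro (h | h)
    · rw [h]
    · rw [h, bar_eq, low_st]

lemma sum_pair {l : ℕ} (hl : l < K) (i : Mode K) (g : Fin 2 → ℂ) (f : Mode K → ℂ) :
    ∑ j, (if low l i = low l j then g (dig l j) else 0) * f j = ∑ b : Fin 2, g b * f (st hl b i) := by
  have h1 : ∀ b : Fin 2, g b * f (st hl b i) =
      (fun j => g (dig l j) * f j) (st hl b i) := by
    intro b; simp only [dig_st]
  rw [Finset.sum_congr rfl (fun b _ => h1 b)]
  rw [← Finset.sum_image (s := (Finset.univ : Finset (Fin 2))) (g := fun b => st hl b i)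
    (f := fun j => g (dig l j) * f j)]
  · rw [← Finset.sum_subset (Finset.subset_univ (Finset.univ.image (fun b : Fin 2 => st hl b i)))]
    · apply Finset.sum_congr rfl
      intro j hj
      rw [Finset.mem_image] at hj
      obtain ⟨b, -, rfl⟩ := hj
      rw [low_st, if_pos rfl]
    · intro j _ hj
      rw [if_neg, zero_mul]
      intro h
      apply hj
      rw [Finset.mem_image]
      exact ⟨dig l j, Finset.mem_univ _, by rw [st_congr hl _ h, st_dig]⟩
  · intro a _ b _ hab
    have := congrArg (dig l) hab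
    simpa [dig_st] using this

lemma bar_bar {l : ℕ} (hl : l < K) (i : Mode K) : bar hl (bar hl i) = i := by
  apply Fin.ext
  simp [bar, Nat.xor_assoc]

lemma sum_bar {l : ℕ} (hl : l < K) (f : Mode K → ℂ) : ∑ x, f (bar hl x) = ∑ x, f x :=
  Fintype.sum_equiv (Function.Involutive.toPerm (bar hl) (bar_bar hl)) _ _ (fun _ => rfl)

/-- Translation by `d`. -/
def sh (d : ℕ) (x : Mode K) : Mode K := ⟨((x : ℕ) ^^^ d) % 2^K, Nat.mod_lt _ (by positivity)⟩

lemma sh_val {d : ℕ} (hd : d < 2^K) (x : Mode K) : ((sh d x : Mode K) : ℕ) = (x:ℕ) ^^^ d :=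
  Nat.mod_eq_of_lt (Nat.xor_lt_two_pow x.isLt hd)

lemma sh_zero (x : Mode K) : sh 0 x = x := by
  apply Fin.ext; rw [sh_val (by positivity)]; simp

lemma xor_lt {l d : ℕ} (hl : l < K) (hd : d < 2^K) : d ^^^ 2^l < 2^K :=
  Nat.xor_lt_two_pow hd (Nat.pow_lt_pow_right (by norm_num) hl)

lemma bar_sh {l d : ℕ} (hl : l < K) (hd : d < 2^K) (x : Mode K) :
    bar hl (sh d x) = sh (d ^^^ 2^l) x := by
  apply Fin.ext
  rw [sh_val (xor_lt hl hd)]
  simp only [bar, sh_val hd, Nat.xor_assoc]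

lemma sh_bar {l d : ℕ} (hl : l < K) (hd : d < 2^K) (x : Mode K) :
    sh d (bar hl x) = sh (d ^^^ 2^l) x := by
  apply Fin.ext
  rw [sh_val (xor_lt hl hd), sh_val hd]
  simp only [bar, Nat.xor_assoc, Nat.xor_comm (2^l) d]

lemma sh_pow {l : ℕ} (hl : l < K) (x : Mode K) : sh (2^l) x = bar hl x := by
  apply Fin.ext
  rw [sh_val (Nat.pow_lt_pow_right (by norm_num) hl)]; rfl

lemma xor_left_cancel' {x a b : ℕ} (h : x ^^^ a = x ^^^ b) : a = b := by
  have : x ^^^ (x ^^^ a) = x ^^^ (x ^^^ b) := by rw [h]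
  rwa [← Nat.xor_assoc, ← Nat.xor_assoc, Nat.xor_self, Nat.zero_xor, Nat.zero_xor] at this

lemma low_sh_iff {l d : ℕ} (hl : l < K) (hd : d < 2^K) (x : Mode K) :
    low l x = low l (sh d x) ↔ (d = 0 ∨ d = 2^l) := by
  rw [low_eq_iff hl]
  constructor
  · rintro (h | h)
    · left
      have := congrArg Fin.val h
      rw [sh_val hd] at this
      exact xor_left_cancel' (x := (x:ℕ)) (by rw [this]; simp)
    · right
      have := congrArg Fin.val h
      rw [sh_val hd] at this
      exact xor_left_cancel' (x := (x:ℕ)) this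
  · rintro (h | h)
    · left; rw [h, sh_zero]
    · right; rw [h, sh_pow]

end pairs

/-! ### Integrability -/

/-- Continuous bounded functions. -/
def Nice {X : Type*} [TopologicalSpace X] (f : X → ℂ) : Prop := Continuous f ∧ ∃ C, ∀ x, ‖f x‖ ≤ C

namespace Nice
variable {X Y : Type*} [TopologicalSpace X] [TopologicalSpace Y]

lemma const (c : ℂ) : Nice (fun _ : X => c) := ⟨continuous_const, ‖c‖, fun _ => le_rfl⟩

lemma mul {f g : X → ℂ} (hf : Nice f) (hg : Nice g) : Nice (fun x => f x * g x) := by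
  obtain ⟨hf1, C, hC⟩ := hf
  obtain ⟨hg1, D, hD⟩ := hg
  refine ⟨hf1.mul hg1, C * D, fun x => ?_⟩
  rw [norm_mul]
  exact mul_le_mul (hC x) (hD x) (norm_nonneg _) (le_trans (norm_nonneg _) (hC x))

lemma add {f g : X → ℂ} (hf : Nice f) (hg : Nice g) : Nice (fun x => f x + g x) := by
  obtain ⟨hf1, C, hC⟩ := hf
  obtain ⟨hg1, D, hD⟩ := hg
  exact ⟨hf1.add hg1, C + D, fun x => (norm_add_le _ _).trans (add_le_add (hC x) (hD x))⟩

lemma sub {f g : X → ℂ} (hf : Nice f) (hg : Nice g) : Nice (fun x => f x - g x) := by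
  obtain ⟨hf1, C, hC⟩ := hf
  obtain ⟨hg1, D, hD⟩ := hg
  exact ⟨hf1.sub hg1, C + D, fun x => (norm_sub_le _ _).trans (add_le_add (hC x) (hD x))⟩

lemma sum {ι : Type*} (s : Finset ι) {f : ι → X → ℂ} (hf : ∀ i, Nice (f i)) :
    Nice (fun x => ∑ i ∈ s, f i x) := by
  classical
  induction s using Finset.induction_on with
  | empty => simpa using const (X := X) 0
  | insert a s ha ih =>
    simp only [Finset.sum_insert ha]
    exact (hf a).add ih

lemma star {f : X → ℂ} (hf : Nice f) : Nice (fun x => (starRingEnd ℂ) (f x)) := by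
  obtain ⟨hf1, C, hC⟩ := hf
  exact ⟨Complex.continuous_conj.comp hf1, C, fun x => by rw [RCLike.norm_conj]; exact hC x⟩

lemma comp {f : X → ℂ} (hf : Nice f) {g : Y → X} (hg : Continuous g) : Nice (fun y => f (g y)) :=
  ⟨hf.1.comp hg, hf.2.choose, fun y => hf.2.choose_spec (g y)⟩

lemma integrable [MeasurableSpace X] [OpensMeasurableSpace X] [SecondCountableTopology X]
    {f : X → ℂ} (hf : Nice f) (μ : Measure X) [IsFiniteMeasure μ] : Integrable f μ := by
  obtain ⟨hf1, C, hC⟩ := hf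
  exact Integrable.of_bound hf1.aestronglyMeasurable C (Filter.Eventually.of_forall hC)

end Nice

lemma nice_gate (a b : Fin 2) : Nice (fun z : ℝ × ℝ => gate z.1 z.2 a b) := by
  constructor
  · simp only [gate_apply]
    have h1 : Continuous (fun z : ℝ × ℝ => ((rot z.1 a b : ℝ) : ℂ)) := by
      apply Complex.continuous_ofReal.comp
      fin_cases a <;> fin_cases b <;> simp [rot] <;> fun_prop
    have h2 : Continuous (fun z : ℝ × ℝ => Complex.exp (Complex.I * (sg b / 2 : ℂ) * z.2)) := by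
      fun_prop
    exact h1.mul h2
  · refine ⟨1, fun z => ?_⟩
    change ‖gate z.1 z.2 a b‖ ≤ 1
    rw [gate_apply, norm_mul]
    have h1 : ‖((rot z.1 a b : ℝ) : ℂ)‖ ≤ 1 := by
      rw [Complex.norm_real, Real.norm_eq_abs]
      fin_cases a <;> fin_cases b <;> simp [rot, Real.abs_cos_le_one, Real.abs_sin_le_one]
    have h2 : ‖Complex.exp (Complex.I * (sg b / 2 : ℂ) * z.2)‖ = 1 := by
      have : Complex.I * (sg b / 2 : ℂ) * z.2 = ((sg b / 2 * z.2 : ℝ) : ℂ) * Complex.I := by
        push_cast; ring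
      rw [this, Complex.norm_exp_ofReal_mul_I]
    rw [h2, mul_one]; exact h1

lemma nice_layer {K l : ℕ} (i j : Mode K) : Nice (fun ω : Mode K → ℝ × ℝ => layer l ω i j) := by
  unfold layer
  split_ifs with h
  · exact (nice_gate _ _).comp (g := fun ω : Mode K → ℝ × ℝ => ω (low l i)) (by fun_prop)
  · exact Nice.const 0

lemma nice_circuit {K : ℕ} (j : ℕ) (x y : Mode K) :
    Nice (fun ω : Fin j → Mode K → ℝ × ℝ => circuit j ω x y) := by
  induction j generalizing x y with
  | zero => exact Nice.const _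
  | succ j ih =>
    simp only [circuit, Matrix.mul_apply]
    apply Nice.sum
    intro k
    apply Nice.mul
    · exact (nice_layer x k).comp (g := fun ω : Fin (j+1) → Mode K → ℝ × ℝ => ω (Fin.last j)) (by fun_prop)
    · exact (ih k y).comp (g := fun ω : Fin (j+1) → Mode K → ℝ × ℝ => fun i => ω i.castSucc) (by fun_prop)

/-! ### Unitarity -/

lemma gate_unitary (θ φ : ℝ) (a b : Fin 2) :
    ∑ c, gate θ φ a c * (starRingEnd ℂ) (gate θ φ b c) = if a = b then 1 else 0 := by
  have e : ∀ c, gate θ φ a c * (starRingEnd ℂ) (gate θ φ b c) = ((rot θ a c * rot θ b c : ℝ) : ℂ) := by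
    intro c
    rw [conj_gate, gate_apply]
    have : Complex.exp (Complex.I * (sg c / 2 : ℂ) * φ) * Complex.exp (-(Complex.I * (sg c / 2 : ℂ) * φ)) = 1 := by
      rw [← Complex.exp_add]; simp
    push_cast
    linear_combination ((rot θ a c : ℂ) * (rot θ b c : ℂ)) * this
  simp only [e]
  rw [← Complex.ofReal_sum, Fin.sum_univ_two]
  have := Real.sin_sq_add_cos_sq θ
  have h1 : Real.cos θ * Real.cos θ + Real.sin θ * Real.sin θ = 1 := by linarith
  have h2 : Real.sin θ * Real.sin θ + Real.cos θ * Real.cos θ = 1 := by linarith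
  fin_cases a <;> fin_cases b
  · simp only [rot]; norm_num; exact_mod_cast h1
  · simp only [rot]; norm_num; ring
  · simp only [rot]; norm_num; ring
  · simp only [rot]; norm_num; exact_mod_cast h2

lemma layer_unitary {K l : ℕ} (hl : l < K) (ω : Mode K → ℝ × ℝ) :
    layer l ω * (layer l ω)ᴴ = 1 := by
  ext i j
  rw [Matrix.mul_apply]
  simp only [Matrix.conjTranspose_apply]
  have h := sum_pair hl i (fun b => gate (ω (low l i)).1 (ω (low l i)).2 (dig l i) b)
    (fun k => star (layer l ω j k))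
  have h1 : ∑ k, layer l ω i k * star (layer l ω j k) = ∑ k, (if low l i = low l k then
      gate (ω (low l i)).1 (ω (low l i)).2 (dig l i) (dig l k) else 0) * star (layer l ω j k) := rfl
  rw [h1, h]
  have h2 : ∀ b, layer l ω j (st hl b i) = if low l j = low l i then
      gate (ω (low l j)).1 (ω (low l j)).2 (dig l j) b else 0 := by
    intro b; unfold layer; rw [low_st, dig_st]
  simp only [h2]
  rw [Matrix.one_apply]
  by_cases hlow : low l j = low l i
  · simp only [hlow, if_true]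
    have h3 := gate_unitary (ω (low l i)).1 (ω (low l i)).2 (dig l i) (dig l j)
    have h4 : ∀ c : ℂ, star c = (starRingEnd ℂ) c := fun _ => rfl
    simp only [h4]
    rw [h3]
    by_cases hd : dig l i = dig l j
    · have : i = j := by
        rw [← st_dig hl i, ← st_dig hl j, st_congr hl _ hlow, hd]
      rw [if_pos hd, if_pos this]
    · have : i ≠ j := fun h => hd (by rw [h])
      rw [if_neg hd, if_neg this]
  · simp only [if_neg hlow]
    have : i ≠ j := fun h => hlow (by rw [h])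
    rw [if_neg this]; simp

lemma circuit_unitary {K : ℕ} (j : ℕ) (hj : j ≤ K) (ω : Fin j → Mode K → ℝ × ℝ) :
    circuit j ω * (circuit j ω)ᴴ = 1 := by
  induction j with
  | zero => simp [circuit]
  | succ j ih =>
    rw [circuit, Matrix.conjTranspose_mul, Matrix.mul_assoc, ← Matrix.mul_assoc (circuit j _),
      ih (by omega), Matrix.one_mul, layer_unitary (by omega)]

/-! ### Two-copy action and the layer average -/

/-- Conjugation by `U ⊗ U`. -/
noncomputable def Ad {K : ℕ} (U : Matrix (Mode K) (Mode K) ℂ)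
    (ρ : Matrix (Mode K × Mode K) (Mode K × Mode K) ℂ) :
    Matrix (Mode K × Mode K) (Mode K × Mode K) ℂ := (U ⊗ₖ U) * ρ * (U ⊗ₖ U)ᴴ

lemma Ad_mul {K : ℕ} (U V : Matrix (Mode K) (Mode K) ℂ)
    (ρ : Matrix (Mode K × Mode K) (Mode K × Mode K) ℂ) : Ad (U * V) ρ = Ad U (Ad V ρ) := by
  unfold Ad
  rw [Matrix.mul_kronecker_mul, Matrix.conjTranspose_mul]
  simp only [Matrix.mul_assoc]

lemma Ad_apply {K : ℕ} (U : Matrix (Mode K) (Mode K) ℂ)
    (ρ : Matrix (Mode K × Mode K) (Mode K × Mode K) ℂ) (x y z w : Mode K) :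
    Ad U ρ (x, y) (z, w) = ∑ c, ∑ d, (∑ a, ∑ b, U x a * U y b * ρ (a, b) (c, d)) *
      ((starRingEnd ℂ) (U z c) * (starRingEnd ℂ) (U w d)) := by
  unfold Ad
  rw [Matrix.mul_apply, Fintype.sum_prod_type]
  apply Finset.sum_congr rfl; intro c _
  apply Finset.sum_congr rfl; intro d _
  rw [Matrix.mul_apply, Fintype.sum_prod_type, Matrix.conjTranspose_apply, Matrix.kronecker_apply]
  simp only [Matrix.kronecker_apply]
  congr 1
  simp

lemma Ad_layer {K l : ℕ} (hl : l < K) (ω : Mode K → ℝ × ℝ)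
    (ρ : Matrix (Mode K × Mode K) (Mode K × Mode K) ℂ) (x y z w : Mode K) :
    Ad (layer l ω) ρ (x, y) (z, w) = ∑ b3 : Fin 2, ∑ b4 : Fin 2, ∑ b1 : Fin 2, ∑ b2 : Fin 2,
      (gate (ω (low l x)).1 (ω (low l x)).2 (dig l x) b1 *
       gate (ω (low l y)).1 (ω (low l y)).2 (dig l y) b2 *
       (starRingEnd ℂ) (gate (ω (low l z)).1 (ω (low l z)).2 (dig l z) b3) *
       (starRingEnd ℂ) (gate (ω (low l w)).1 (ω (low l w)).2 (dig l w) b4)) *
      ρ (st hl b1 x, st hl b2 y) (st hl b3 z, st hl b4 w) := by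
  rw [Ad_apply]
  have e1 : ∀ (x : Mode K) (f : Mode K → ℂ), ∑ a, layer l ω x a * f a =
      ∑ b : Fin 2, gate (ω (low l x)).1 (ω (low l x)).2 (dig l x) b * f (st hl b x) :=
    fun x f => sum_pair hl x (fun b => gate (ω (low l x)).1 (ω (low l x)).2 (dig l x) b) f
  have e2 : ∀ (x : Mode K) (f : Mode K → ℂ), ∑ a, (starRingEnd ℂ) (layer l ω x a) * f a =
      ∑ b : Fin 2, (starRingEnd ℂ) (gate (ω (low l x)).1 (ω (low l x)).2 (dig l x) b) * f (st hl b x) := by
    intro x f
    have := sum_pair hl x (fun b => (starRingEnd ℂ) (gate (ω (low l x)).1 (ω (low l x)).2 (dig l x) b)) f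
    rw [← this]
    apply Finset.sum_congr rfl
    intro j _
    unfold layer
    split_ifs <;> simp
  have e3 : ∀ c d, ∑ a, ∑ b, layer l ω x a * layer l ω y b * ρ (a, b) (c, d) =
      ∑ b1 : Fin 2, ∑ b2 : Fin 2, gate (ω (low l x)).1 (ω (low l x)).2 (dig l x) b1 *
        gate (ω (low l y)).1 (ω (low l y)).2 (dig l y) b2 * ρ (st hl b1 x, st hl b2 y) (c, d) := by
    intro c d
    have h1 : ∀ a, ∑ b, layer l ω x a * layer l ω y b * ρ (a, b) (c, d) = layer l ω x a *
        ∑ b2 : Fin 2, gate (ω (low l y)).1 (ω (low l y)).2 (dig l y) b2 * ρ (a, st hl b2 y) (c, d) := by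
      intro a
      rw [← e1 y (fun b => ρ (a, b) (c, d)), Finset.mul_sum]
      apply Finset.sum_congr rfl; intro b _; ring
    simp only [h1]
    rw [e1 x (fun a => ∑ b2 : Fin 2, gate (ω (low l y)).1 (ω (low l y)).2 (dig l y) b2 *
      ρ (a, st hl b2 y) (c, d))]
    apply Finset.sum_congr rfl; intro b1 _
    rw [Finset.mul_sum]
    apply Finset.sum_congr rfl; intro b2 _
    ring
  simp only [e3]
  have e4 : ∀ c, ∑ d, (∑ b1 : Fin 2, ∑ b2 : Fin 2, gate (ω (low l x)).1 (ω (low l x)).2 (dig l x) b1 *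
        gate (ω (low l y)).1 (ω (low l y)).2 (dig l y) b2 * ρ (st hl b1 x, st hl b2 y) (c, d)) *
        ((starRingEnd ℂ) (layer l ω z c) * (starRingEnd ℂ) (layer l ω w d)) =
      (starRingEnd ℂ) (layer l ω z c) * ∑ b4 : Fin 2,
        (starRingEnd ℂ) (gate (ω (low l w)).1 (ω (low l w)).2 (dig l w) b4) *
        (∑ b1 : Fin 2, ∑ b2 : Fin 2, gate (ω (low l x)).1 (ω (low l x)).2 (dig l x) b1 *
        gate (ω (low l y)).1 (ω (low l y)).2 (dig l y) b2 *
          ρ (st hl b1 x, st hl b2 y) (c, st hl b4 w)) := by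
    intro c
    rw [← e2 w (fun d => ∑ b1 : Fin 2, ∑ b2 : Fin 2, gate (ω (low l x)).1 (ω (low l x)).2 (dig l x) b1 *
        gate (ω (low l y)).1 (ω (low l y)).2 (dig l y) b2 * ρ (st hl b1 x, st hl b2 y) (c, d)),
      Finset.mul_sum]
    apply Finset.sum_congr rfl; intro d _; ring
  simp only [e4]
  rw [e2 z]
  apply Finset.sum_congr rfl; intro b3 _
  rw [Finset.mul_sum]
  apply Finset.sum_congr rfl; intro b4 _
  rw [Finset.mul_sum, Finset.mul_sum]
  apply Finset.sum_congr rfl; intro b1 _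
  rw [Finset.mul_sum, Finset.mul_sum]
  apply Finset.sum_congr rfl; intro b2 _
  ring

instance layerLaw_prob (K : ℕ) : IsProbabilityMeasure (layerLaw K) := by
  unfold layerLaw; infer_instance

instance law_prob (K j : ℕ) : IsProbabilityMeasure (law K j) := by
  unfold law; infer_instance

lemma int_one {K : ℕ} (p : Mode K) (F : ℝ × ℝ → ℂ) (hF : Nice F) :
    ∫ ω, F (ω p) ∂(layerLaw K) = ∫ z, F z ∂(unif.prod unif) := by
  have h := measurePreserving_eval (fun _ : Mode K => unif.prod unif) p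
  unfold layerLaw
  conv_rhs => rw [← h.map_eq]
  rw [integral_map h.measurable.aemeasurable hF.1.aestronglyMeasurable]

lemma int_two {K : ℕ} {p q : Mode K} (hpq : p ≠ q) (F G : ℝ × ℝ → ℂ) :
    ∫ ω, F (ω p) * G (ω q) ∂(layerLaw K) =
      (∫ z, F z ∂(unif.prod unif)) * ∫ z, G z ∂(unif.prod unif) := by
  have h := integral_fintype_prod_eq_prod (𝕜 := ℂ) (μ := fun _ : Mode K => unif.prod unif)
    (f := fun k => if k = p then F else if k = q then G else fun _ => 1)
  have h1 : ∀ ω : Mode K → ℝ × ℝ, ∏ k, (if k = p then F else if k = q then G else fun _ => 1) (ω k) =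
      F (ω p) * G (ω q) := by
    intro ω
    rw [Finset.prod_eq_mul p q hpq]
    · simp [hpq.symm]
    · intro c _ hc
      simp [hc.1, hc.2]
    · intro h; exact absurd (Finset.mem_univ _) h
    · intro h; exact absurd (Finset.mem_univ _) h
  have h2 : ∏ k, ∫ z, (if k = p then F else if k = q then G else fun _ => 1) z ∂(unif.prod unif) =
      (∫ z, F z ∂(unif.prod unif)) * ∫ z, G z ∂(unif.prod unif) := by
    rw [Finset.prod_eq_mul p q hpq]
    · simp [hpq.symm]
    · intro c _ hc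
      simp [hc.1, hc.2]
    · intro h; exact absurd (Finset.mem_univ _) h
    · intro h; exact absurd (Finset.mem_univ _) h
  rw [h2] at h
  rw [← h]
  unfold layerLaw
  simp only [h1]

/-- The moments of the entries of a layer. -/
noncomputable def Mval (same : Prop) [Decidable same] (a a' b1 b2 b3 b4 : Fin 2) : ℂ :=
  if same then
    (if sg b1 + sg b2 = sg b3 + sg b4 then
        (if b1 = b2 then (if a = a' then 3/8 else 1/8) else
          (if a = a' then 1/8 else if b1 = b3 then 3/8 else -1/8)) else 0)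
  else if b1 = b3 ∧ b2 = b4 then 1/4 else 0

lemma int_gates {K l : ℕ} (x y : Mode K) (b1 b2 b3 b4 : Fin 2) :
    ∫ ω : Mode K → ℝ × ℝ, (gate (ω (low l x)).1 (ω (low l x)).2 (dig l x) b1 *
       gate (ω (low l y)).1 (ω (low l y)).2 (dig l y) b2 *
       (starRingEnd ℂ) (gate (ω (low l x)).1 (ω (low l x)).2 (dig l x) b3) *
       (starRingEnd ℂ) (gate (ω (low l y)).1 (ω (low l y)).2 (dig l y) b4)) ∂(layerLaw K) =
    Mval (low l x = low l y) (dig l x) (dig l y) b1 b2 b3 b4 := by
  unfold Mval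
  by_cases h : low l x = low l y
  · rw [if_pos h, ← h]
    rw [int_one (low l x) (fun z => gate z.1 z.2 (dig l x) b1 * gate z.1 z.2 (dig l y) b2 *
      (starRingEnd ℂ) (gate z.1 z.2 (dig l x) b3) * (starRingEnd ℂ) (gate z.1 z.2 (dig l y) b4))]
    · exact mom4 _ _ _ _ _ _
    · exact (((nice_gate _ _).mul (nice_gate _ _)).mul (nice_gate _ _).star).mul (nice_gate _ _).star
  · rw [if_neg h]
    have e : ∀ ω : Mode K → ℝ × ℝ, (gate (ω (low l x)).1 (ω (low l x)).2 (dig l x) b1 *
       gate (ω (low l y)).1 (ω (low l y)).2 (dig l y) b2 *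
       (starRingEnd ℂ) (gate (ω (low l x)).1 (ω (low l x)).2 (dig l x) b3) *
       (starRingEnd ℂ) (gate (ω (low l y)).1 (ω (low l y)).2 (dig l y) b4)) =
       (fun z : ℝ × ℝ => gate z.1 z.2 (dig l x) b1 * (starRingEnd ℂ) (gate z.1 z.2 (dig l x) b3)) (ω (low l x)) *
       (fun z : ℝ × ℝ => gate z.1 z.2 (dig l y) b2 * (starRingEnd ℂ) (gate z.1 z.2 (dig l y) b4)) (ω (low l y)) := by
      intro ω; ring
    simp only [e]
    rw [int_two h (fun z : ℝ × ℝ => gate z.1 z.2 (dig l x) b1 * (starRingEnd ℂ) (gate z.1 z.2 (dig l x) b3))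
      (fun z : ℝ × ℝ => gate z.1 z.2 (dig l y) b2 * (starRingEnd ℂ) (gate z.1 z.2 (dig l y) b4)), mom2, mom2]
    by_cases h1 : b1 = b3 <;> by_cases h2 : b2 = b4 <;> simp [h1, h2]; norm_num

lemma int_Ad_layer {K l : ℕ} (hl : l < K)
    (ρ : Matrix (Mode K × Mode K) (Mode K × Mode K) ℂ) (x y : Mode K) :
    ∫ ω, Ad (layer l ω) ρ (x, y) (x, y) ∂(layerLaw K) =
      ∑ b3 : Fin 2, ∑ b4 : Fin 2, ∑ b1 : Fin 2, ∑ b2 : Fin 2,
      Mval (low l x = low l y) (dig l x) (dig l y) b1 b2 b3 b4 *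
      ρ (st hl b1 x, st hl b2 y) (st hl b3 x, st hl b4 y) := by
  simp only [Ad_layer hl]
  have hn : ∀ (p : Mode K) (a b : Fin 2), Nice (fun ω : Mode K → ℝ × ℝ =>
      gate (ω p).1 (ω p).2 a b) := fun p a b =>
    (nice_gate a b).comp (g := fun ω : Mode K → ℝ × ℝ => ω p) (by fun_prop)
  have hnn : ∀ b1 b2 b3 b4, Nice (fun ω : Mode K → ℝ × ℝ =>
      (gate (ω (low l x)).1 (ω (low l x)).2 (dig l x) b1 *
       gate (ω (low l y)).1 (ω (low l y)).2 (dig l y) b2 *
       (starRingEnd ℂ) (gate (ω (low l x)).1 (ω (low l x)).2 (dig l x) b3) *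
       (starRingEnd ℂ) (gate (ω (low l y)).1 (ω (low l y)).2 (dig l y) b4)) *
      ρ (st hl b1 x, st hl b2 y) (st hl b3 x, st hl b4 y)) := fun b1 b2 b3 b4 =>
    ((((hn _ _ _).mul (hn _ _ _)).mul (hn _ _ _).star).mul (hn _ _ _).star).mul (Nice.const _)
  rw [integral_finsetSum _ (fun b3 _ => (Nice.sum _ (fun b4 => Nice.sum _ (fun b1 =>
    Nice.sum _ (fun b2 => hnn b1 b2 b3 b4)))).integrable _)]
  apply Finset.sum_congr rfl; intro b3 _
  rw [integral_finsetSum _ (fun b4 _ => (Nice.sum _ (fun b1 =>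
    Nice.sum _ (fun b2 => hnn b1 b2 b3 b4))).integrable _)]
  apply Finset.sum_congr rfl; intro b4 _
  rw [integral_finsetSum _ (fun b1 _ => (
    Nice.sum _ (fun b2 => hnn b1 b2 b3 b4)).integrable _)]
  apply Finset.sum_congr rfl; intro b1 _
  rw [integral_finsetSum _ (fun b2 _ => (hnn b1 b2 b3 b4).integrable _)]
  apply Finset.sum_congr rfl; intro b2 _
  rw [integral_mul_const, int_gates]

/-! ### The difference functional -/

/-- Symmetric two-copy operators. -/
def Symm {K : ℕ} (ρ : Matrix (Mode K × Mode K) (Mode K × Mode K) ℂ) : Prop :=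
  (∀ a b q, ρ (b, a) q = ρ (a, b) q) ∧ (∀ p c d, ρ p (d, c) = ρ p (c, d))

/-- The sum over pairs of modes of difference `d`. -/
noncomputable def Sf {K : ℕ} (ρ : Matrix (Mode K × Mode K) (Mode K × Mode K) ℂ) (d : ℕ) : ℂ :=
  ∑ x, ρ (x, sh d x) (x, sh d x)

/-- The normalised functional. -/
noncomputable def Tf {K : ℕ} (ρ : Matrix (Mode K × Mode K) (Mode K × Mode K) ℂ) (d : ℕ) : ℂ :=
  if d = 0 then (1/2) * Sf ρ 0 else Sf ρ d

lemma symm_B {K l : ℕ} (hl : l < K) {ρ : Matrix (Mode K × Mode K) (Mode K × Mode K) ℂ}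
    (hs : Symm ρ) (x : Mode K) :
    ρ (st hl 0 x, st hl 1 x) (st hl 0 x, st hl 1 x) = ρ (x, bar hl x) (x, bar hl x) := by
  have h := st_dig hl x
  rw [bar_eq]
  rcases Fin.exists_fin_two.1 ⟨dig l x, rfl⟩ with h1 | h1
  · rw [h1] at h ⊢
    rw [h]; rfl
  · rw [h1] at h ⊢
    rw [h]
    change ρ (st hl 0 x, x) (st hl 0 x, x) = ρ (x, st hl 0 x) (x, st hl 0 x)
    rw [hs.1, hs.2]

lemma same_pair {K l : ℕ} (hl : l < K) {ρ : Matrix (Mode K × Mode K) (Mode K × Mode K) ℂ}
    (hs : Symm ρ) {x y : Mode K} (h : low l x = low l y) :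
    ∫ ω, Ad (layer l ω) ρ (x, y) (x, y) ∂(layerLaw K) =
      (if dig l x = dig l y then 3/8 else 1/8) * (ρ (x, x) (x, x) +
        ρ (bar hl x, bar hl x) (bar hl x, bar hl x)) + (1/2) * ρ (x, bar hl x) (x, bar hl x) := by
  rw [int_Ad_layer hl, ← symm_B hl hs x, ← sum_st hl x (fun z => ρ (z, z) (z, z))]
  have hy : ∀ b, st hl b y = st hl b x := fun b => st_congr hl b h.symm
  simp only [hy, Fin.sum_univ_two, Mval, if_pos h]
  have s1 := hs.1 (st hl 0 x) (st hl 1 x)
  have s2 := hs.2 (st hl 0 x, st hl 1 x) (st hl 0 x) (st hl 1 x)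
  simp only [s1, s2]
  have g0 : sg 0 = 1 := rfl
  have g1 : sg 1 = -1 := rfl
  simp only [g0, g1]
  by_cases hd : dig l x = dig l y
  · simp only [hd]
    norm_num
    ring
  · simp only [hd]
    norm_num
    ring

lemma diff_pair {K l : ℕ} (hl : l < K) (ρ : Matrix (Mode K × Mode K) (Mode K × Mode K) ℂ)
    {x y : Mode K} (h : low l x ≠ low l y) :
    ∫ ω, Ad (layer l ω) ρ (x, y) (x, y) ∂(layerLaw K) =
      (1/4) * (ρ (x, y) (x, y) + ρ (x, bar hl y) (x, bar hl y) + ρ (bar hl x, y) (bar hl x, y) +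
        ρ (bar hl x, bar hl y) (bar hl x, bar hl y)) := by
  rw [int_Ad_layer hl]
  have e : (1/4 : ℂ) * (ρ (x, y) (x, y) + ρ (x, bar hl y) (x, bar hl y) + ρ (bar hl x, y) (bar hl x, y) +
        ρ (bar hl x, bar hl y) (bar hl x, bar hl y)) =
      (1/4) * ∑ b1 : Fin 2, ∑ b2 : Fin 2, ρ (st hl b1 x, st hl b2 y) (st hl b1 x, st hl b2 y) := by
    have h1 : ∀ z, ∑ b2 : Fin 2, ρ (z, st hl b2 y) (z, st hl b2 y) =
        ρ (z, y) (z, y) + ρ (z, bar hl y) (z, bar hl y) := fun z =>
      sum_st hl y (fun w => ρ (z, w) (z, w))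
    simp only [h1]
    rw [sum_st hl x (fun z => ρ (z, y) (z, y) + ρ (z, bar hl y) (z, bar hl y))]
    ring
  rw [e]
  simp only [Fin.sum_univ_two, Mval, if_neg h]
  norm_num
  ring

lemma nice_Ad_layer {K l : ℕ} (ρ : Matrix (Mode K × Mode K) (Mode K × Mode K) ℂ) (x y z w : Mode K) :
    Nice (fun ω : Mode K → ℝ × ℝ => Ad (layer l ω) ρ (x, y) (z, w)) := by
  simp only [Ad_apply]
  apply Nice.sum; intro c
  apply Nice.sum; intro d
  apply Nice.mul
  · apply Nice.sum; intro a
    apply Nice.sum; intro b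
    exact ((nice_layer _ _).mul (nice_layer _ _)).mul (Nice.const _)
  · exact (nice_layer _ _).star.mul (nice_layer _ _).star

lemma int_Sf {K l : ℕ} (hl : l < K) {ρ : Matrix (Mode K × Mode K) (Mode K × Mode K) ℂ}
    (hs : Symm ρ) {d : ℕ} (hd : d < 2^K) :
    ∫ ω, Sf (Ad (layer l ω) ρ) d ∂(layerLaw K) =
      if d = 0 then (3/4) * Sf ρ 0 + (1/2) * Sf ρ (2^l)
      else if d = 2^l then (1/4) * Sf ρ 0 + (1/2) * Sf ρ (2^l)
      else (1/2) * Sf ρ d + (1/2) * Sf ρ (d ^^^ 2^l) := by
  unfold Sf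
  rw [integral_finsetSum _ (fun x _ => (nice_Ad_layer ρ _ _ _ _).integrable _)]
  have hA : ∑ x, ρ (bar hl x, bar hl x) (bar hl x, bar hl x) = ∑ x, ρ (x, x) (x, x) :=
    sum_bar hl (fun x => ρ (x, x) (x, x))
  by_cases h0 : d = 0
  · subst h0
    rw [if_pos rfl]
    have : ∀ x : Mode K, ∫ ω, Ad (layer l ω) ρ (x, sh 0 x) (x, sh 0 x) ∂(layerLaw K) =
        (3/8) * (ρ (x, x) (x, x) +
        ρ (bar hl x, bar hl x) (bar hl x, bar hl x)) + (1/2) * ρ (x, bar hl x) (x, bar hl x) := by
      intro x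
      rw [sh_zero, same_pair hl hs rfl, if_pos rfl]
    rw [Finset.sum_congr rfl (fun x _ => this x)]
    simp only [sh_zero, sh_pow hl]
    rw [Finset.sum_add_distrib, ← Finset.mul_sum, ← Finset.mul_sum, Finset.sum_add_distrib, hA]
    ring
  · rw [if_neg h0]
    by_cases h1 : d = 2^l
    · subst h1
      rw [if_pos rfl]
      have : ∀ x : Mode K, ∫ ω, Ad (layer l ω) ρ (x, sh (2^l) x) (x, sh (2^l) x) ∂(layerLaw K) =
          (1/8) * (ρ (x, x) (x, x) +
          ρ (bar hl x, bar hl x) (bar hl x, bar hl x)) + (1/2) * ρ (x, bar hl x) (x, bar hl x) := by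
        intro x
        rw [sh_pow hl, same_pair hl hs ((low_eq_iff hl _ _).2 (Or.inr rfl)), if_neg]
        rw [bar_eq, dig_st]
        generalize dig l x = a
        revert a; decide
      rw [Finset.sum_congr rfl (fun x _ => this x)]
      simp only [sh_zero, sh_pow hl]
      rw [Finset.sum_add_distrib, ← Finset.mul_sum, ← Finset.mul_sum, Finset.sum_add_distrib, hA]
      ring
    · rw [if_neg h1]
      have : ∀ x : Mode K, ∫ ω, Ad (layer l ω) ρ (x, sh d x) (x, sh d x) ∂(layerLaw K) =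
          (1/4) * (ρ (x, sh d x) (x, sh d x) + ρ (x, sh (d ^^^ 2^l) x) (x, sh (d ^^^ 2^l) x) +
            ρ (bar hl x, sh (d ^^^ 2^l) (bar hl x)) (bar hl x, sh (d ^^^ 2^l) (bar hl x)) +
            ρ (bar hl x, sh d (bar hl x)) (bar hl x, sh d (bar hl x))) := by
        intro x
        have hne : low l x ≠ low l (sh d x) := by
          intro h
          rcases (low_sh_iff hl hd x).1 h with h | h
          · exact h0 h
          · exact h1 h
        rw [diff_pair hl ρ hne, bar_sh hl hd, sh_bar hl hd, sh_bar hl (xor_lt hl hd)]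
        rw [Nat.xor_assoc, Nat.xor_self, Nat.xor_zero]
      simp only [this]
      rw [← Finset.mul_sum, Finset.sum_add_distrib, Finset.sum_add_distrib, Finset.sum_add_distrib,
        sum_bar hl (fun x => ρ (x, sh (d ^^^ 2^l) x) (x, sh (d ^^^ 2^l) x)),
        sum_bar hl (fun x => ρ (x, sh d x) (x, sh d x))]
      ring

lemma int_Tf {K l : ℕ} (hl : l < K) {ρ : Matrix (Mode K × Mode K) (Mode K × Mode K) ℂ}
    (hs : Symm ρ) {d : ℕ} (hd : d < 2^K) :
    ∫ ω, Tf (Ad (layer l ω) ρ) d ∂(layerLaw K) = stp (2^l) (Tf ρ) d := by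
  have hpos : (2:ℕ)^l ≠ 0 := by positivity
  unfold Tf stp
  by_cases h0 : d = 0
  · subst h0
    simp only [if_true, if_neg hpos]
    rw [integral_const_mul, int_Sf hl hs hd, if_pos rfl]; ring
  · simp only [if_neg h0]
    rw [int_Sf hl hs hd, if_neg h0]
    by_cases h1 : d = 2^l
    · subst h1
      simp only [if_true, Nat.xor_self]
      ring
    · rw [if_neg h1]
      have : d ^^^ 2^l ≠ 0 := by
        intro h
        apply h1
        exact xor_left_cancel' (x := 2^l) (by rw [Nat.xor_comm, h]; simp)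
      rw [if_neg this]

/-! ### The whole circuit -/

lemma symm_Ad {K : ℕ} (U : Matrix (Mode K) (Mode K) ℂ)
    {ρ : Matrix (Mode K × Mode K) (Mode K × Mode K) ℂ} (hs : Symm ρ) : Symm (Ad U ρ) := by
  constructor
  · rintro a b ⟨c, d⟩
    rw [Ad_apply, Ad_apply]
    apply Finset.sum_congr rfl; intro c' _
    apply Finset.sum_congr rfl; intro d' _
    congr 1
    rw [Finset.sum_comm]
    apply Finset.sum_congr rfl; intro a' _
    apply Finset.sum_congr rfl; intro b' _
    rw [hs.1]; ring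
  · rintro ⟨a, b⟩ c d
    rw [Ad_apply, Ad_apply]
    rw [Finset.sum_comm]
    apply Finset.sum_congr rfl; intro c' _
    apply Finset.sum_congr rfl; intro d' _
    have : ∀ a' b', ρ (a', b') (d', c') = ρ (a', b') (c', d') := fun a' b' => hs.2 _ _ _
    simp only [this]
    ring

lemma nice_Ad {K : ℕ} {X : Type*} [TopologicalSpace X] {U : X → Matrix (Mode K) (Mode K) ℂ}
    (hU : ∀ i j, Nice (fun x => U x i j))
    (ρ : Matrix (Mode K × Mode K) (Mode K × Mode K) ℂ) (x y z w : Mode K) :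
    Nice (fun ω : X => Ad (U ω) ρ (x, y) (z, w)) := by
  simp only [Ad_apply]
  apply Nice.sum; intro c
  apply Nice.sum; intro d
  apply Nice.mul
  · apply Nice.sum; intro a
    apply Nice.sum; intro b
    exact ((hU _ _).mul (hU _ _)).mul (Nice.const _)
  · exact (hU _ _).star.mul (hU _ _).star

lemma nice_Tf {K : ℕ} {X : Type*} [TopologicalSpace X] {U : X → Matrix (Mode K) (Mode K) ℂ}
    (hU : ∀ i j, Nice (fun x => U x i j))
    (ρ : Matrix (Mode K × Mode K) (Mode K × Mode K) ℂ) (d : ℕ) :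
    Nice (fun ω : X => Tf (Ad (U ω) ρ) d) := by
  unfold Tf Sf
  split_ifs
  · exact (Nice.const _).mul (Nice.sum _ (fun x => nice_Ad hU ρ _ _ _ _))
  · exact Nice.sum _ (fun x => nice_Ad hU ρ _ _ _ _)

lemma int_stp {X : Type*} [MeasurableSpace X] {μ : Measure X} (e : ℕ) (v : X → ℕ → ℂ) (d : ℕ)
    (hv : ∀ d, Integrable (fun x => v x d) μ) :
    ∫ x, stp e (v x) d ∂μ = stp e (fun d => ∫ x, v x d ∂μ) d := by
  unfold stp
  split_ifs
  · rw [integral_add ((hv _).const_mul _) ((hv _).const_mul _), integral_const_mul, integral_const_mul]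
  · rw [integral_add ((hv _).const_mul _) ((hv _).const_mul _), integral_const_mul, integral_const_mul]

lemma int_circuit {K : ℕ} {ρ : Matrix (Mode K × Mode K) (Mode K × Mode K) ℂ}
    (hs : Symm ρ) (j : ℕ) (hj : j ≤ K) : ∀ d : ℕ, d < 2^K →
    ∫ ω, Tf (Ad (circuit j ω) ρ) d ∂(law K j) = Nn j (Tf ρ) d := by
  induction j with
  | zero =>
    intro d _
    have : ∀ ω : Fin 0 → Mode K → ℝ × ℝ, Ad (circuit 0 ω) ρ = ρ := by
      intro ω
      unfold Ad
      simp [circuit]
    simp only [this, Nn]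
    simp
  | succ j ih =>
    intro d hd
    have ih := ih (by omega)
    have hmp := measurePreserving_piFinSuccAbove (fun _ : Fin (j+1) => layerLaw K) (Fin.last j)
    have hU1 : ∀ a b, Nice (fun z : (Mode K → ℝ × ℝ) × (Fin j → Mode K → ℝ × ℝ) =>
        (layer j z.1 * circuit j z.2) a b) := by
      intro a b
      simp only [Matrix.mul_apply]
      apply Nice.sum; intro k
      exact ((nice_layer a k).comp continuous_fst).mul ((nice_circuit j k b).comp continuous_snd)
    have hG := (nice_Tf hU1 ρ d).integrable ((layerLaw K).prod (law K j))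
    have h1 : ∫ ω, Tf (Ad (circuit (j+1) ω) ρ) d ∂(law K (j+1)) =
        ∫ z, Tf (Ad (layer j z.1 * circuit j z.2) ρ) d ∂((layerLaw K).prod (law K j)) := by
      have := hmp.integral_comp' (g := fun z : (Mode K → ℝ × ℝ) × (Fin j → Mode K → ℝ × ℝ) =>
        Tf (Ad (layer j z.1 * circuit j z.2) ρ) d)
      rw [law]
      unfold law
      rw [← this]
      apply integral_congr_ae
      filter_upwards with ω
      simp only [circuit]
      congr 3
      · congr 1
        ext i : 1
        simp [MeasurableEquiv.piFinSuccAbove]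
        rfl
    rw [h1, integral_prod_symm _ hG]
    simp only [Ad_mul]
    have h2 : ∀ ω : Fin j → Mode K → ℝ × ℝ,
        ∫ η, Tf (Ad (layer j η) (Ad (circuit j ω) ρ)) d ∂(layerLaw K) =
        stp (2^j) (Tf (Ad (circuit j ω) ρ)) d := fun ω => int_Tf (by omega) (symm_Ad _ hs) hd
    simp only [h2]
    rw [int_stp _ (fun ω => Tf (Ad (circuit j ω) ρ)) d
      (fun d => (nice_Tf (fun a b => nice_circuit j a b) ρ d).integrable _)]
    rw [Nn]
    have hpow : 2^j < 2^K := Nat.pow_lt_pow_right (by norm_num) (by omega)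
    unfold stp
    dsimp only
    split_ifs with h0
    · rw [ih 0 (by positivity), ih _ hpow]
    · rw [ih d hd, ih _ (xor_lt (by omega) hd)]

/-! ### From the exterior square to two copies -/

section ext
variable {K : ℕ}

/-- The (unnormalised) embedding of the exterior square. -/
def Jm (K : ℕ) : Matrix (Mode K × Mode K) (Pr K) ℂ := fun a p =>
  (if a = p.1 then 1 else 0) - (if a = p.1.swap then 1 else 0)

lemma sum_J (D : Mode K → Mode K → ℂ) (hD : ∀ a b, D b a = - D a b) (a b : Mode K) :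
    ∑ p : Pr K, Jm K (a, b) p * D p.1.1 p.1.2 = D a b := by
  rcases lt_trichotomy a b with h | h | h
  · rw [Finset.sum_eq_single (⟨(a, b), h⟩ : Pr K)]
    · have : (a, b) ≠ (b, a) := fun h' => by
        rw [Prod.mk.injEq] at h'; exact absurd h'.1 h.ne
      simp [Jm, this]
    · intro p _ hp
      have h1 : (a, b) ≠ p.1 := fun h' => hp (Subtype.ext h'.symm)
      have h2 : (a, b) ≠ p.1.swap := fun h' => by
        have := congrArg Prod.swap h'
        rw [Prod.swap_swap, Prod.swap_prod_mk] at this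
        have hlt := p.2
        rw [← this] at hlt
        exact absurd hlt (not_lt.2 h.le)
      simp [Jm, h1, h2]
    · intro h'; exact absurd (Finset.mem_univ _) h'
  · subst h
    have h0 : D a a = 0 := by
      have := hD a a
      linear_combination (1/2) * this
    rw [h0]
    apply Finset.sum_eq_zero
    intro p _
    have h1 : (a, a) ≠ p.1 := fun h' => by
      have hlt := p.2
      rw [← h'] at hlt
      exact absurd hlt (lt_irrefl _)
    have h2 : (a, a) ≠ p.1.swap := fun h' => by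
      have := congrArg Prod.swap h'
      rw [Prod.swap_swap, Prod.swap_prod_mk] at this
      exact h1 this
    simp [Jm, h1, h2]
  · rw [Finset.sum_eq_single (⟨(b, a), h⟩ : Pr K)]
    · have : (a, b) ≠ (b, a) := fun h' => by
        rw [Prod.mk.injEq] at h'; exact absurd h'.1 h.ne'
      simp [Jm, this, hD a b]
    · intro p _ hp
      have h2 : (a, b) ≠ p.1 := fun h' => by
        have hlt := p.2
        rw [← h'] at hlt
        exact absurd hlt (not_lt.2 h.le)
      have h1 : (a, b) ≠ p.1.swap := fun h' => by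
        have := congrArg Prod.swap h'
        rw [Prod.swap_swap, Prod.swap_prod_mk] at this
        exact hp (Subtype.ext this.symm)
      simp [Jm, h1, h2]
    · intro h'; exact absurd (Finset.mem_univ _) h'

/-- `J J^T = 1 - SWAP`. -/
lemma JJ (a b c d : Mode K) : ∑ p : Pr K, Jm K (a, b) p * Jm K (c, d) p =
    (if a = c ∧ b = d then 1 else 0) - (if a = d ∧ b = c then 1 else 0) := by
  have h := sum_J (fun x y => (if c = x ∧ d = y then (1:ℂ) else 0) - (if c = y ∧ d = x then 1 else 0))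
    (fun x y => by ring) a b
  have e1 : ∀ p : Pr K, Jm K (c, d) p =
      (if c = p.1.1 ∧ d = p.1.2 then (1:ℂ) else 0) - (if c = p.1.2 ∧ d = p.1.1 then 1 else 0) := by
    intro p
    unfold Jm
    congr 1
    · simp only [Prod.ext_iff]
    · simp only [Prod.ext_iff, Prod.fst_swap, Prod.snd_swap]
  simp only [e1]
  rw [h]
  refine congrArg₂ (· - ·) (if_congr ?_ rfl rfl) (if_congr ?_ rfl rfl)
  · exact ⟨fun h => ⟨h.1.symm, h.2.symm⟩, fun h => ⟨h.1.symm, h.2.symm⟩⟩
  · exact ⟨fun h => ⟨h.2.symm, h.1.symm⟩, fun h => ⟨h.2.symm, h.1.symm⟩⟩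

lemma J_ext2 (W : Matrix (Mode K) (Mode K) ℂ) : Jm K * ext2 W = (W ⊗ₖ W) * Jm K := by
  ext ⟨a, b⟩ q
  rw [Matrix.mul_apply]
  have h := sum_J (fun x y => W x q.1.1 * W y q.1.2 - W x q.1.2 * W y q.1.1) (fun x y => by ring) a b
  have e : ∑ p, Jm K (a, b) p * ext2 W p q = W a q.1.1 * W b q.1.2 - W a q.1.2 * W b q.1.1 := by
    rw [← h]; rfl
  rw [e, Matrix.mul_apply, Fintype.sum_prod_type]
  simp only [Matrix.kronecker_apply, Jm, mul_sub, Finset.sum_sub_distrib]
  congr 1
  · rw [Finset.sum_eq_single q.1.1, Finset.sum_eq_single q.1.2]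
    · simp
    · intro c _ hc
      rw [if_neg (fun h' => hc (by rw [← h'])), mul_zero]
    · intro h'; exact absurd (Finset.mem_univ _) h'
    · intro c _ hc
      apply Finset.sum_eq_zero
      intro d _
      rw [if_neg (fun h' => hc (by rw [← h'])), mul_zero]
    · intro h'; exact absurd (Finset.mem_univ _) h'
  · rw [Finset.sum_eq_single q.1.2, Finset.sum_eq_single q.1.1]
    · simp [Prod.ext_iff]
    · intro c _ hc
      rw [if_neg (fun h' => hc (by simpa using congrArg Prod.snd h')), mul_zero]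
    · intro h'; exact absurd (Finset.mem_univ _) h'
    · intro c _ hc
      apply Finset.sum_eq_zero
      intro d _
      rw [if_neg (fun h' => hc (by simpa using congrArg Prod.fst h')), mul_zero]
    · intro h'; exact absurd (Finset.mem_univ _) h'

/-- The one-body operator of `A` on the exterior square. -/
noncomputable def dL (A : Matrix (Mode K) (Mode K) ℂ) : Matrix (Pr K) (Pr K) ℂ :=
  (Jm K)ᴴ * (A ⊗ₖ (1 : Matrix (Mode K) (Mode K) ℂ)) * Jm K

lemma dL_covariant {W : Matrix (Mode K) (Mode K) ℂ} (hW : Wᴴ * W = 1) (A : Matrix (Mode K) (Mode K) ℂ) :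
    (ext2 W)ᴴ * dL A * ext2 W = dL (Wᴴ * A * W) := by
  unfold dL
  have h1 : (ext2 W)ᴴ * ((Jm K)ᴴ * (A ⊗ₖ (1 : Matrix (Mode K) (Mode K) ℂ)) * Jm K) * ext2 W =
      (Jm K * ext2 W)ᴴ * (A ⊗ₖ (1 : Matrix (Mode K) (Mode K) ℂ)) * (Jm K * ext2 W) := by
    rw [Matrix.conjTranspose_mul]
    simp only [Matrix.mul_assoc]
  rw [h1, J_ext2, Matrix.conjTranspose_mul, Matrix.conjTranspose_kronecker]
  have h2 : (Jm K)ᴴ * (Wᴴ ⊗ₖ Wᴴ) * (A ⊗ₖ (1 : Matrix (Mode K) (Mode K) ℂ)) * ((W ⊗ₖ W) * Jm K) =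
      (Jm K)ᴴ * ((Wᴴ ⊗ₖ Wᴴ) * (A ⊗ₖ (1 : Matrix (Mode K) (Mode K) ℂ)) * (W ⊗ₖ W)) * Jm K := by
    simp only [Matrix.mul_assoc]
  rw [h2, ← Matrix.mul_kronecker_mul, ← Matrix.mul_kronecker_mul, Matrix.mul_one, hW]

lemma dL_sum {ι : Type*} (s : Finset ι) (f : ι → Matrix (Mode K) (Mode K) ℂ) :
    dL (∑ i ∈ s, f i) = ∑ i ∈ s, dL (f i) := by
  classical
  induction s using Finset.induction_on with
  | empty => simp [dL]
  | insert a s ha ih =>
    rw [Finset.sum_insert ha, Finset.sum_insert ha, ← ih]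
    unfold dL
    rw [Matrix.add_kronecker, Matrix.mul_add, Matrix.add_mul]

lemma dL_smul (c : ℂ) (A : Matrix (Mode K) (Mode K) ℂ) : dL (c • A) = c • dL A := by
  unfold dL
  rw [Matrix.smul_kronecker, Matrix.mul_smul, Matrix.smul_mul]

/-- Matrix units. -/
noncomputable def E1 (c a : Mode K) : Matrix (Mode K) (Mode K) ℂ := Matrix.single c a 1

lemma E1_covariant (W : Matrix (Mode K) (Mode K) ℂ) (c a : Mode K) :
    Wᴴ * E1 c a * W = ∑ c', ∑ a', ((starRingEnd ℂ) (W c c') * W a a') • E1 c' a' := by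
  ext i j
  rw [Matrix.mul_apply]
  simp only [Matrix.sum_apply, Matrix.smul_apply, E1, smul_eq_mul]
  rw [Finset.sum_eq_single a, Matrix.mul_apply, Finset.sum_eq_single c,
    Finset.sum_eq_single i, Finset.sum_eq_single j]
  · simp [Matrix.conjTranspose_apply]
  · intro b _ hb; simp [Matrix.single_apply, hb]
  · intro h; exact absurd (Finset.mem_univ _) h
  · intro b _ hb
    apply Finset.sum_eq_zero; intro b' _
    simp [Matrix.single_apply, hb]
  · intro h; exact absurd (Finset.mem_univ _) h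
  · intro b _ hb; simp [Matrix.single_apply, hb.symm]
  · intro h; exact absurd (Finset.mem_univ _) h
  · intro b _ hb
    rw [Matrix.mul_apply, Finset.sum_eq_zero, zero_mul]
    intro b' _
    simp [Matrix.single_apply, hb.symm]
  · intro h; exact absurd (Finset.mem_univ _) h

/-- The reduced two-copy operator. -/
noncomputable def red (Y : Matrix (Pr K × Pr K) (Pr K × Pr K) ℂ) :
    Matrix (Mode K × Mode K) (Mode K × Mode K) ℂ := fun p q =>
  Matrix.trace ((dL (E1 q.1 p.1) ⊗ₖ dL (E1 q.2 p.2)) * Y)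

lemma trace_kron_sum {ι κ : Type*} (s : Finset ι) (t : Finset κ)
    (f : ι → Matrix (Pr K) (Pr K) ℂ) (g : κ → Matrix (Pr K) (Pr K) ℂ)
    (Y : Matrix (Pr K × Pr K) (Pr K × Pr K) ℂ) :
    Matrix.trace (((∑ i ∈ s, f i) ⊗ₖ (∑ j ∈ t, g j)) * Y) =
      ∑ i ∈ s, ∑ j ∈ t, Matrix.trace ((f i ⊗ₖ g j) * Y) := by
  have h1 : (∑ i ∈ s, f i) ⊗ₖ (∑ j ∈ t, g j) = ∑ i ∈ s, ∑ j ∈ t, (f i ⊗ₖ g j) := by
    ext ⟨a, b⟩ ⟨c, d⟩
    simp only [Matrix.kronecker_apply, Matrix.sum_apply]
    rw [Finset.sum_mul_sum]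
  rw [h1, Finset.sum_mul, Matrix.trace_sum]
  apply Finset.sum_congr rfl; intro i _
  rw [Finset.sum_mul, Matrix.trace_sum]

lemma red_covariant {W : Matrix (Mode K) (Mode K) ℂ} (hW : Wᴴ * W = 1)
    (Y : Matrix (Pr K × Pr K) (Pr K × Pr K) ℂ) :
    red ((ext2 W ⊗ₖ ext2 W) * Y * (ext2 W ⊗ₖ ext2 W)ᴴ) = Ad W (red Y) := by
  ext ⟨a, b⟩ ⟨c, d⟩
  rw [Ad_apply]
  unfold red
  dsimp only
  have h1 : Matrix.trace ((dL (E1 c a) ⊗ₖ dL (E1 d b)) *
      ((ext2 W ⊗ₖ ext2 W) * Y * (ext2 W ⊗ₖ ext2 W)ᴴ)) =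
      Matrix.trace (((dL (Wᴴ * E1 c a * W)) ⊗ₖ (dL (Wᴴ * E1 d b * W))) * Y) := by
    rw [← dL_covariant hW, ← dL_covariant hW, Matrix.mul_kronecker_mul, Matrix.mul_kronecker_mul,
      ← Matrix.conjTranspose_kronecker]
    rw [← Matrix.mul_assoc, ← Matrix.mul_assoc, Matrix.trace_mul_comm]
    simp only [Matrix.mul_assoc]
  rw [h1, E1_covariant, E1_covariant, dL_sum, dL_sum, trace_kron_sum]
  apply Finset.sum_congr rfl; intro c' _
  apply Finset.sum_congr rfl; intro d' _
  rw [dL_sum, dL_sum, trace_kron_sum, Finset.sum_mul]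
  apply Finset.sum_congr rfl; intro a' _
  rw [Finset.sum_mul]
  apply Finset.sum_congr rfl; intro b' _
  rw [dL_smul, dL_smul, Matrix.smul_kronecker, Matrix.kronecker_smul, Matrix.smul_mul,
    Matrix.smul_mul, Matrix.trace_smul, Matrix.trace_smul, smul_eq_mul, smul_eq_mul]
  ring

end ext

/-! ### Symmetrisation and the intertwining relation -/

section inter
variable {K : ℕ}

/-- Swap of the two ket copies. -/
def sw1 (ρ : Matrix (Mode K × Mode K) (Mode K × Mode K) ℂ) :
    Matrix (Mode K × Mode K) (Mode K × Mode K) ℂ := fun p q => ρ p.swap q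

/-- Swap of the two bra copies. -/
def sw2 (ρ : Matrix (Mode K × Mode K) (Mode K × Mode K) ℂ) :
    Matrix (Mode K × Mode K) (Mode K × Mode K) ℂ := fun p q => ρ p q.swap

/-- Symmetrisation. -/
noncomputable def symz (ρ : Matrix (Mode K × Mode K) (Mode K × Mode K) ℂ) :
    Matrix (Mode K × Mode K) (Mode K × Mode K) ℂ := ρ + sw1 ρ + sw2 ρ + sw1 (sw2 ρ)

lemma symz_apply (ρ : Matrix (Mode K × Mode K) (Mode K × Mode K) ℂ) (a b c d : Mode K) :
    symz ρ (a, b) (c, d) = ρ (a, b) (c, d) + ρ (b, a) (c, d) + ρ (a, b) (d, c) + ρ (b, a) (d, c) := rfl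

lemma symm_symz (ρ : Matrix (Mode K × Mode K) (Mode K × Mode K) ℂ) : Symm (symz ρ) := by
  constructor
  · rintro a b ⟨c, d⟩
    rw [symz_apply, symz_apply]; ring
  · rintro ⟨a, b⟩ c d
    rw [symz_apply, symz_apply]; ring

lemma Ad_sw1 (U : Matrix (Mode K) (Mode K) ℂ) (ρ : Matrix (Mode K × Mode K) (Mode K × Mode K) ℂ) :
    Ad U (sw1 ρ) = sw1 (Ad U ρ) := by
  ext ⟨a, b⟩ ⟨c, d⟩
  change _ = Ad U ρ (b, a) (c, d)
  rw [Ad_apply, Ad_apply]
  apply Finset.sum_congr rfl; intro c' _
  apply Finset.sum_congr rfl; intro d' _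
  congr 1
  rw [Finset.sum_comm]
  apply Finset.sum_congr rfl; intro a' _
  apply Finset.sum_congr rfl; intro b' _
  change _ * ρ (a', b') (c', d') = _
  ring

lemma Ad_sw2 (U : Matrix (Mode K) (Mode K) ℂ) (ρ : Matrix (Mode K × Mode K) (Mode K × Mode K) ℂ) :
    Ad U (sw2 ρ) = sw2 (Ad U ρ) := by
  ext ⟨a, b⟩ ⟨c, d⟩
  change _ = Ad U ρ (a, b) (d, c)
  rw [Ad_apply, Ad_apply]
  rw [Finset.sum_comm]
  apply Finset.sum_congr rfl; intro c' _
  apply Finset.sum_congr rfl; intro d' _
  have : ∀ a' b', sw2 ρ (a', b') (d', c') = ρ (a', b') (c', d') := fun a' b' => rfl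
  simp only [this]
  ring

lemma Ad_add (U : Matrix (Mode K) (Mode K) ℂ) (ρ σ : Matrix (Mode K × Mode K) (Mode K × Mode K) ℂ) :
    Ad U (ρ + σ) = Ad U ρ + Ad U σ := by
  unfold Ad; rw [Matrix.mul_add, Matrix.add_mul]

lemma symz_Ad (U : Matrix (Mode K) (Mode K) ℂ) (ρ : Matrix (Mode K × Mode K) (Mode K × Mode K) ℂ) :
    symz (Ad U ρ) = Ad U (symz ρ) := by
  unfold symz
  rw [Ad_add, Ad_add, Ad_add, Ad_sw1, Ad_sw2, Ad_sw1, Ad_sw2]

lemma red_add (Y Z : Matrix (Pr K × Pr K) (Pr K × Pr K) ℂ) : red (Y + Z) = red Y + red Z := by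
  ext p q; simp [red, Matrix.mul_add, Matrix.trace_add]

lemma red_smul (c : ℂ) (Y : Matrix (Pr K × Pr K) (Pr K × Pr K) ℂ) : red (c • Y) = c • red Y := by
  ext p q; simp [red, Matrix.mul_smul, Matrix.trace_smul]

/-- The functional on the exterior square. -/
noncomputable def TL (d : ℕ) : Matrix (Pr K × Pr K) (Pr K × Pr K) ℂ →ₗ[ℂ] ℂ where
  toFun Y := Tf (symz (red Y)) d
  map_add' Y Z := by
    have h : ∀ p q, symz (red (Y + Z)) p q = symz (red Y) p q + symz (red Z) p q := by
      rintro ⟨a, b⟩ ⟨c, d⟩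
      rw [symz_apply, symz_apply, symz_apply, red_add]
      simp only [Matrix.add_apply]
      ring
    unfold Tf Sf
    simp only [h, Finset.sum_add_distrib]
    split_ifs <;> ring
  map_smul' c Y := by
    have h : ∀ p q, symz (red (c • Y)) p q = c * symz (red Y) p q := by
      rintro ⟨a, b⟩ ⟨c', d⟩
      rw [symz_apply, symz_apply, red_smul]
      simp only [Matrix.smul_apply, smul_eq_mul]
      ring
    unfold Tf Sf
    simp only [h, ← Finset.mul_sum, RingHom.id_apply, smul_eq_mul]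
    split_ifs <;> ring

lemma L_int {n : Type*} [Fintype n] [DecidableEq n] {X : Type*} [MeasurableSpace X] (μ : Measure X)
    (L : Matrix n n ℂ →ₗ[ℂ] ℂ) (F : X → Matrix n n ℂ)
    (hF : ∀ a b, Integrable (fun x => F x a b) μ) :
    L (fun a b => ∫ x, F x a b ∂μ) = ∫ x, L (F x) ∂μ := by
  have key : ∀ Z : Matrix n n ℂ, L Z = ∑ a, ∑ b, Z a b * L (Matrix.single a b 1) := by
    intro Z
    conv_lhs => rw [Matrix.matrix_eq_sum_single Z]
    rw [map_sum]
    apply Finset.sum_congr rfl; intro a _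
    rw [map_sum]
    apply Finset.sum_congr rfl; intro b _
    have : Matrix.single a b (Z a b) = Z a b • (Matrix.single a b 1 : Matrix n n ℂ) := by
      rw [Matrix.smul_single, smul_eq_mul, mul_one]
    rw [this, map_smul, smul_eq_mul]
  rw [show L (fun a b => ∫ x, F x a b ∂μ) =
    ∑ a, ∑ b, (∫ x, F x a b ∂μ) * L (Matrix.single a b 1) from key _]
  have e2 : ∀ x, L (F x) = ∑ a, ∑ b, F x a b * L (Matrix.single a b 1) := fun x => key _
  simp only [e2]
  rw [integral_finsetSum _ (fun a _ => integrable_finsetSum _ (fun b _ => (hF a b).mul_const _))]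
  apply Finset.sum_congr rfl; intro a _
  rw [integral_finsetSum _ (fun b _ => (hF a b).mul_const _)]
  apply Finset.sum_congr rfl; intro b _
  rw [integral_mul_const]

lemma nice_ext2 (p q : Pr K) : Nice (fun ω : Fin K → Mode K → ℝ × ℝ => ext2 (circuit K ω) p q) :=
  ((nice_circuit K _ _).mul (nice_circuit K _ _)).sub ((nice_circuit K _ _).mul (nice_circuit K _ _))

lemma nice_integrand (Y : Matrix (Pr K × Pr K) (Pr K × Pr K) ℂ) (a b : Pr K × Pr K) :
    Nice (fun ω : Fin K → Mode K → ℝ × ℝ => ((ext2 (circuit K ω) ⊗ₖ ext2 (circuit K ω)) * Y *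
    (ext2 (circuit K ω) ⊗ₖ ext2 (circuit K ω))ᴴ) a b) := by
  simp only [Matrix.mul_apply]
  apply Nice.sum; intro c
  apply Nice.mul
  · apply Nice.sum; intro d
    exact ((nice_ext2 _ _).mul (nice_ext2 _ _)).mul (Nice.const _)
  · simp only [Matrix.conjTranspose_apply]
    exact ((nice_ext2 _ _).mul (nice_ext2 _ _)).star

/-- The integrand of `Φ`. -/
noncomputable def Zf (Y : Matrix (Pr K × Pr K) (Pr K × Pr K) ℂ) (ω : Fin K → Mode K → ℝ × ℝ) :
    Matrix (Pr K × Pr K) (Pr K × Pr K) ℂ :=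
  (ext2 (circuit K ω) ⊗ₖ ext2 (circuit K ω)) * Y * (ext2 (circuit K ω) ⊗ₖ ext2 (circuit K ω))ᴴ

lemma nice_Zf (Y : Matrix (Pr K × Pr K) (Pr K × Pr K) ℂ) (a b : Pr K × Pr K) :
    Nice (fun ω : Fin K → Mode K → ℝ × ℝ => Zf Y ω a b) := nice_integrand Y a b

/-- `Φ` as a linear map. -/
noncomputable def PhiL (K : ℕ) : Matrix (Pr K × Pr K) (Pr K × Pr K) ℂ →ₗ[ℂ]
    Matrix (Pr K × Pr K) (Pr K × Pr K) ℂ where
  toFun := Phi K
  map_add' Y Z := by
    ext a b
    change (∫ ω, Zf (Y + Z) ω a b ∂(law K K)) =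
      (∫ ω, Zf Y ω a b ∂(law K K)) + (∫ ω, Zf Z ω a b ∂(law K K))
    rw [← integral_add ((nice_Zf Y a b).integrable _) ((nice_Zf Z a b).integrable _)]
    apply integral_congr_ae
    filter_upwards with ω
    unfold Zf
    rw [Matrix.mul_add, Matrix.add_mul]; rfl
  map_smul' c Y := by
    ext a b
    change (∫ ω, Zf (c • Y) ω a b ∂(law K K)) = c * (∫ ω, Zf Y ω a b ∂(law K K))
    rw [← integral_const_mul]
    apply integral_congr_ae
    filter_upwards with ω
    unfold Zf
    rw [Matrix.mul_smul, Matrix.smul_mul]; rfl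

lemma TL_Phi (Y : Matrix (Pr K × Pr K) (Pr K × Pr K) ℂ) {d : ℕ} (hd : d < 2^K) :
    TL d (Phi K Y) = Nn K (fun d => TL d Y) d := by
  have h1 : TL d (Phi K Y) = ∫ ω, TL d ((ext2 (circuit K ω) ⊗ₖ ext2 (circuit K ω)) * Y *
      (ext2 (circuit K ω) ⊗ₖ ext2 (circuit K ω))ᴴ) ∂(law K K) :=
    L_int (law K K) (TL d) _ (fun a b => (nice_integrand Y a b).integrable _)
  rw [h1]
  have h2 : ∀ ω : Fin K → Mode K → ℝ × ℝ, TL d ((ext2 (circuit K ω) ⊗ₖ ext2 (circuit K ω)) * Y *
      (ext2 (circuit K ω) ⊗ₖ ext2 (circuit K ω))ᴴ) = Tf (Ad (circuit K ω) (symz (red Y))) d := by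
    intro ω
    change Tf (symz (red _)) d = _
    have hu : (circuit K ω)ᴴ * circuit K ω = 1 := mul_eq_one_comm.1 (circuit_unitary K le_rfl ω)
    rw [red_covariant hu, symz_Ad]
  simp only [h2]
  exact int_circuit (symm_symz _) K le_rfl d hd

/-! ### Test operators -/

/-- The vector `e_a ∧ e_b`. -/
noncomputable def jv (a b : Mode K) : Pr K → ℂ := fun p => Jm K (a, b) p

lemma J_real : (Jm K)ᴴ = (Jm K)ᵀ := by
  ext p a
  rw [Matrix.conjTranspose_apply, Matrix.transpose_apply]
  unfold Jm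
  split_ifs <;> simp

lemma J_jv (a b : Mode K) : Jm K *ᵥ jv a b = Pi.single (a, b) 1 - Pi.single (b, a) 1 := by
  ext ⟨c, d⟩
  have h : (Jm K *ᵥ jv a b) (c, d) = ∑ p, Jm K (c, d) p * Jm K (a, b) p := rfl
  rw [h, JJ, Pi.sub_apply, Pi.single_apply, Pi.single_apply]
  refine congrArg₂ (· - ·) (if_congr ?_ rfl rfl) (if_congr ?_ rfl rfl)
  · rw [Prod.mk.injEq]
  · rw [Prod.mk.injEq]

lemma jv_dL (p q r s : Mode K) (A : Matrix (Mode K) (Mode K) ℂ) :
    jv p q ⬝ᵥ (dL A *ᵥ jv r s) = A p r * (if q = s then 1 else 0) - A p s * (if q = r then 1 else 0)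
      - A q r * (if p = s then 1 else 0) + A q s * (if p = r then 1 else 0) := by
  unfold dL
  rw [J_real, ← Matrix.mulVec_mulVec, ← Matrix.mulVec_mulVec, Matrix.dotProduct_mulVec,
    Matrix.vecMul_transpose, J_jv, J_jv]
  rw [Matrix.mulVec_sub, dotProduct_sub, sub_dotProduct, sub_dotProduct]
  simp only [Matrix.mulVec_single_one, single_one_dotProduct, Matrix.col_apply,
    Matrix.kronecker_apply, Matrix.one_apply]
  ring

/-- Rank one test operator. -/
noncomputable def tst (p q p' q' r s r' s' : Mode K) : Matrix (Pr K × Pr K) (Pr K × Pr K) ℂ :=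
  Matrix.vecMulVec (fun i => jv r s i.1 * jv r' s' i.2) (fun i => jv p q i.1 * jv p' q' i.2)

lemma trace_tst (p q p' q' r s r' s' : Mode K) (A B : Matrix (Pr K) (Pr K) ℂ) :
    Matrix.trace ((A ⊗ₖ B) * tst p q p' q' r s r' s') =
      (jv p q ⬝ᵥ (A *ᵥ jv r s)) * (jv p' q' ⬝ᵥ (B *ᵥ jv r' s')) := by
  unfold tst
  rw [Matrix.mul_vecMulVec, Matrix.trace_vecMulVec]
  simp only [dotProduct, Matrix.mulVec, Matrix.kronecker_apply, Fintype.sum_prod_type]
  rw [Finset.sum_mul_sum]
  apply Finset.sum_congr rfl; intro i _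
  apply Finset.sum_congr rfl; intro i' _
  have : (∑ k, ∑ k', A i k * B i' k' * (jv r s k * jv r' s' k')) =
      (∑ k, A i k * jv r s k) * ∑ k', B i' k' * jv r' s' k' := by
    rw [Finset.sum_mul_sum]
    apply Finset.sum_congr rfl; intro k _
    apply Finset.sum_congr rfl; intro k' _
    ring
  rw [this]; ring

end inter

section final
variable {K : ℕ}

lemma mode_exists (hK : 2 ≤ K) (x y : Mode K) : ∃ z : Mode K, z ≠ x ∧ z ≠ y := by
  by_contra h
  push Not at h
  have h1 : (Finset.univ : Finset (Mode K)) ⊆ {x, y} := by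
    intro z _
    rw [Finset.mem_insert, Finset.mem_singleton]
    by_cases hz : z = x
    · exact Or.inl hz
    · exact Or.inr (h z hz)
  have h2 := Finset.card_le_card h1
  rw [Finset.card_univ, Fintype.card_fin] at h2
  have h3 : ({x, y} : Finset (Mode K)).card ≤ 2 := Finset.card_le_two
  have h4 : 2^2 ≤ 2^K := Nat.pow_le_pow_right (by norm_num) hK
  omega

/-- The test operator for a nonzero difference. -/
lemma TL_test (hK : 2 ≤ K) {d : ℕ} (hd0 : 0 < d) (hd : d < 2^K) :
    ∃ Y : Matrix (Pr K × Pr K) (Pr K × Pr K) ℂ, ∀ d' < 2^K, TL d' Y = 2 * dl d d' := by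
  set x : Mode K := ⟨0, by positivity⟩ with hx
  set y : Mode K := sh d x with hy
  have hyv : (y : ℕ) = d := by rw [hy, sh_val hd]; simp [hx]
  have hxv : (x : ℕ) = 0 := rfl
  have hxy : x ≠ y := fun h => by
    have := congrArg Fin.val h
    rw [hyv, hxv] at this
    omega
  obtain ⟨z, hzx, hzy⟩ := mode_exists hK x y
  refine ⟨tst y z x z x z y z, fun d' hd' => ?_⟩
  have hred : ∀ a b c e, red (tst y z x z x z y z) (a, b) (c, e) =
      (if c = y ∧ a = x then 1 else 0) * (if e = x ∧ b = y then 1 else 0) := by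
    intro a b c e
    unfold red
    dsimp only
    rw [trace_tst, jv_dL, jv_dL]
    simp only [E1, Matrix.single_apply, hzx, hzx.symm, hzy, hzy.symm, hxy, hxy.symm, if_false, if_true]
    simp
  have hs : ∀ w : Mode K, symz (red (tst y z x z x z y z)) (w, sh d' w) (w, sh d' w) =
      (if w = y then (if sh d' w = x then 1 else 0) else 0) +
      (if w = x then (if sh d' w = y then 1 else 0) else 0) := by
    intro w
    rw [symz_apply, hred, hred, hred, hred]
    by_cases h1 : w = x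
    · have h2 : w ≠ y := fun h => hxy (by rw [← h1, h])
      by_cases h3 : sh d' w = x
      · have h4 : sh d' w ≠ y := fun h => hxy (by rw [← h3, h])
        simp [h1, hxy]
      · simp [h1, hxy, hxy.symm]
    · by_cases h2 : w = y
      · by_cases h3 : sh d' w = x
        · simp [h2, hxy.symm]
        · simp [h2, hxy.symm]
      · by_cases h3 : sh d' w = x
        · have h4 : sh d' w ≠ y := fun h => hxy (by rw [← h3, h])
          simp [h1, h2, h3, h4, hxy, hxy.symm]
        · simp [h1, h2, h3]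
  change Tf (symz (red (tst y z x z x z y z))) d' = _
  have hS : Sf (symz (red (tst y z x z x z y z))) d' =
      (if sh d' y = x then 1 else 0) + (if sh d' x = y then 1 else 0) := by
    unfold Sf
    simp only [hs]
    rw [Finset.sum_add_distrib, Finset.sum_ite_eq', Finset.sum_ite_eq']
    simp
  have e1 : sh d' y = x ↔ d' = d := by
    rw [Fin.ext_iff, sh_val hd', hyv, hxv]
    constructor
    · intro h
      exact (xor_left_cancel' (x := d) (by rw [h]; simp))
    · intro h; rw [h]; simp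
  have e2 : sh d' x = y ↔ d' = d := by
    rw [Fin.ext_iff, sh_val hd', hyv, hxv]
    simp
  simp only [e1, e2] at hS
  unfold Tf dl
  by_cases h0 : d' = 0
  · subst h0
    rw [if_pos rfl, hS]
    simp [hd0.ne]
  · rw [if_neg h0, hS]
    split_ifs <;> norm_num

/-- The test operator with nonzero value at difference zero. -/
lemma TL_test0 (hK : 2 ≤ K) :
    ∃ Y : Matrix (Pr K × Pr K) (Pr K × Pr K) ℂ, TL 0 Y ≠ 0 := by
  set x : Mode K := ⟨0, by positivity⟩ with hx
  obtain ⟨z, hzx, -⟩ := mode_exists hK x x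
  refine ⟨tst x z x z x z x z, ?_⟩
  have hred : ∀ a b c e, red (tst x z x z x z x z) (a, b) (c, e) =
      ((if c = x ∧ a = x then 1 else 0) + (if c = z ∧ a = z then 1 else 0)) *
      ((if e = x ∧ b = x then 1 else 0) + (if e = z ∧ b = z then 1 else 0)) := by
    intro a b c e
    unfold red
    dsimp only
    rw [trace_tst, jv_dL, jv_dL]
    simp only [E1, Matrix.single_apply, hzx, hzx.symm, if_false, if_true]
    simp
  have hs : ∀ w : Mode K, symz (red (tst x z x z x z x z)) (w, sh 0 w) (w, sh 0 w) =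
      (if w = x then 4 else 0) + (if w = z then 4 else 0) := by
    intro w
    rw [sh_zero, symz_apply, hred]
    by_cases h1 : w = x
    · have h2 : w ≠ z := fun h => hzx (by rw [← h1, h])
      simp [h1, hzx.symm]; norm_num
    · by_cases h2 : w = z
      · simp [h2, hzx]; norm_num
      · simp [h1, h2]
  change Tf (symz (red (tst x z x z x z x z))) 0 ≠ 0
  unfold Tf Sf
  rw [if_pos rfl]
  simp only [hs]
  rw [Finset.sum_add_distrib, Finset.sum_ite_eq', Finset.sum_ite_eq']
  simp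

/-- Extension by zero. -/
noncomputable def ext0 (S : Fin (K+1) → ℂ) : ℕ → ℂ := fun n => if h : n < K + 1 then S ⟨n, h⟩ else 0

lemma cls_add (u v : ℕ → ℂ) (s : ℕ) : cls (fun d => u d + v d) s = cls u s + cls v s := by
  cases s with
  | zero => rfl
  | succ s => simp only [cls, Finset.sum_add_distrib]

lemma cls_smul (c : ℂ) (v : ℕ → ℂ) (s : ℕ) : cls (fun d => c * v d) s = c * cls v s := by
  cases s with
  | zero => rfl
  | succ s => simp only [cls, Finset.mul_sum]

lemma cls_congr {u v : ℕ → ℂ} {s : ℕ} (hs : s ≤ K) (h : ∀ d < 2^K, u d = v d) : cls u s = cls v s := by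
  cases s with
  | zero => exact h 0 (by positivity)
  | succ s =>
    simp only [cls]
    apply Finset.sum_congr rfl
    intro i hi
    rw [Finset.mem_range] at hi
    apply h
    have h1 : 2^(s+1) ≤ 2^K := Nat.pow_le_pow_right (by norm_num) hs
    have h2 : (2:ℕ)^(s+1) = 2^s + 2^s := by rw [pow_succ]; ring
    omega

/-- The quotient map. -/
noncomputable def tau (K : ℕ) : Matrix (Pr K × Pr K) (Pr K × Pr K) ℂ →ₗ[ℂ] (Fin (K+1) → ℂ) where
  toFun Y := fun s => cls (fun d => TL d Y) s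
  map_add' Y Z := by
    ext s
    simp only [map_add, Pi.add_apply]
    exact cls_add _ _ _
  map_smul' c Y := by
    ext s
    simp only [map_smul, Pi.smul_apply, smul_eq_mul, RingHom.id_apply]
    exact cls_smul _ _ _

/-- The quotient operator. -/
noncomputable def N2 (K : ℕ) : (Fin (K+1) → ℂ) →ₗ[ℂ] (Fin (K+1) → ℂ) where
  toFun S := fun s => cls (beta K (ext0 S)) s
  map_add' S S' := by
    ext s
    have e : ext0 (S + S') = fun n => ext0 S n + ext0 S' n := by
      ext n; unfold ext0; split_ifs <;> simp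
    have e2 : beta K (ext0 (S + S')) = fun d => beta K (ext0 S) d + beta K (ext0 S') d := by
      ext d; rw [e, beta_add]
    simp only [e2, Pi.add_apply]
    exact cls_add _ _ _
  map_smul' c S := by
    ext s
    have e : ext0 (c • S) = fun n => c * ext0 S n := by
      ext n; unfold ext0; split_ifs <;> simp
    have e2 : beta K (ext0 (c • S)) = fun d => c * beta K (ext0 S) d := by
      ext d; rw [e, beta_smul]
    simp only [e2, Pi.smul_apply, RingHom.id_apply, smul_eq_mul]
    exact cls_smul _ _ _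

lemma tau_Phi (Y : Matrix (Pr K × Pr K) (Pr K × Pr K) ℂ) : tau K (Phi K Y) = N2 K (tau K Y) := by
  ext s
  change cls (fun d => TL d (Phi K Y)) s = cls (beta K (ext0 (tau K Y))) s
  apply cls_congr (K := K) (by omega)
  intro d hd
  rw [TL_Phi Y hd, Nn_low K _ d hd]
  apply beta_congr
  intro t ht
  unfold ext0
  rw [dif_pos (by omega)]
  rfl

lemma tau_surj (hK : 2 ≤ K) : Function.Surjective (tau K) := by
  rw [← LinearMap.range_eq_top]
  have hbase : ∀ s : Fin (K+1), (s : ℕ) ≠ 0 → (Pi.single s 1 : Fin (K+1) → ℂ) ∈ LinearMap.range (tau K) := by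
    intro s hs
    obtain ⟨t, ht⟩ := Nat.exists_eq_succ_of_ne_zero hs
    have htK : t < K := by have := s.isLt; omega
    have hlt : 2^t < 2^K := Nat.pow_lt_pow_right (by norm_num) htK
    obtain ⟨Y, hY⟩ := TL_test hK (d := 2^t) (by positivity) hlt
    refine ⟨(1/2 : ℂ) • Y, ?_⟩
    rw [map_smul]
    ext r
    change (1/2 : ℂ) * cls (fun d => TL d Y) r = _
    rw [cls_congr (K := K) (by omega) hY, cls_smul]
    have hc : cls (dl (2^t)) r = (Pi.single s 1 : Fin (K+1) → ℂ) r := by
      rcases lt_trichotomy (r : ℕ) (t+1) with h | h | h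
      · rw [cls_dl_high (j := t) le_rfl (by omega), Pi.single_eq_of_ne]
        intro h'; rw [h'] at h; omega
      · have : r = s := Fin.ext (by rw [h, ht])
        rw [h, cls_dl_eq le_rfl (Nat.pow_lt_pow_right (by norm_num) (by omega)), this,
          Pi.single_eq_same]
      · rw [cls_dl_low (j := t+1) (Nat.pow_lt_pow_right (by norm_num) (by omega)) (by omega),
          Pi.single_eq_of_ne]
        intro h'; rw [h'] at h; omega
    rw [← hc]; ring
  have hzero : (Pi.single 0 1 : Fin (K+1) → ℂ) ∈ LinearMap.range (tau K) := by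
    obtain ⟨Y, hY⟩ := TL_test0 hK
    have h1 : tau K Y = ∑ s, (tau K Y) s • (Pi.single s 1 : Fin (K+1) → ℂ) := by
      conv_lhs => rw [pi_eq_sum_univ' (tau K Y)]
    have h2 : (tau K Y) 0 • (Pi.single 0 1 : Fin (K+1) → ℂ) ∈ LinearMap.range (tau K) := by
      have h3 : (tau K Y) 0 • (Pi.single 0 1 : Fin (K+1) → ℂ) =
          tau K Y - ∑ s : Fin K, (tau K Y) s.succ • (Pi.single s.succ 1 : Fin (K+1) → ℂ) := by
        rw [eq_sub_iff_add_eq]
        conv_rhs => rw [h1]
        rw [Fin.sum_univ_succ]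
      rw [h3]
      apply Submodule.sub_mem
      · exact LinearMap.mem_range_self _ _
      · apply Submodule.sum_mem
        intro s _
        apply Submodule.smul_mem
        apply hbase
        simp
    have h4 : (tau K Y) 0 ≠ 0 := hY
    have h5 := Submodule.smul_mem _ ((tau K Y) 0)⁻¹ h2
    rwa [smul_smul, inv_mul_cancel₀ h4, one_smul] at h5
  rw [eq_top_iff]
  intro v _
  have h1 : v = ∑ s, v s • (Pi.single s 1 : Fin (K+1) → ℂ) := by
    conv_lhs => rw [pi_eq_sum_univ' v]
  rw [h1]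
  apply Submodule.sum_mem
  intro s _
  apply Submodule.smul_mem
  by_cases hs : (s:ℕ) = 0
  · have : s = 0 := Fin.ext hs
    rw [this]; exact hzero
  · exact hbase s hs

lemma trace_N2 : LinearMap.trace ℂ _ (N2 K) = 1 + (3/4)^K - (1/2)^K := by
  rw [LinearMap.trace_eq_matrix_trace ℂ (Pi.basisFun ℂ (Fin (K+1)))]
  have h1 : ∀ s : Fin (K+1), (LinearMap.toMatrix (Pi.basisFun ℂ (Fin (K+1)))
      (Pi.basisFun ℂ (Fin (K+1))) (N2 K)) s s = cls (beta K (ext0 (Pi.single s 1))) s := by
    intro s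
    rw [LinearMap.toMatrix_apply]
    simp
    rfl
  rw [Matrix.trace]
  simp only [Matrix.diag_apply, h1]
  rw [Fin.sum_univ_succ]
  have e0 : cls (beta K (ext0 (Pi.single (0 : Fin (K+1)) 1))) ((0 : Fin (K+1)) : ℕ) = (3/4)^K := by
    change beta K _ 0 = _
    rw [← beta_diag_zero K]
    apply beta_congr
    intro s hs
    unfold ext0
    rw [dif_pos (by omega)]
    rcases Nat.eq_zero_or_pos s with h | h
    · subst h
      simp [cls, dl]
    · rw [cls_dl_low (j := 0) (by norm_num) (by omega), Pi.single_eq_of_ne]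
      intro h'
      have := congrArg Fin.val h'
      simp at this; omega
  have e1 : ∀ t : Fin K, cls (beta K (ext0 (Pi.single t.succ 1))) ((t.succ : Fin (K+1)) : ℕ) =
      2^(t:ℕ) * (1/2)^K := by
    intro t
    have htK : (t:ℕ) < K := t.isLt
    rw [Fin.val_succ, cls]
    have h2 : ∀ u ∈ Finset.range (2^(t:ℕ)), beta K (ext0 (Pi.single t.succ 1)) (2^(t:ℕ) + u) = (1/2)^K := by
      intro u hu
      rw [Finset.mem_range] at hu
      have h3 : (2:ℕ)^((t:ℕ)+1) = 2^(t:ℕ) + 2^(t:ℕ) := by rw [pow_succ]; ring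
      have h4 : 2^((t:ℕ)+1) ≤ 2^K := Nat.pow_le_pow_right (by norm_num) (by omega)
      have hpos : 0 < 2^(t:ℕ) := by positivity
      rw [← beta_diag K (2^(t:ℕ) + u) (by omega) (by omega)]
      apply beta_congr
      intro s hs
      unfold ext0
      rw [dif_pos (by omega)]
      rcases lt_trichotomy s ((t:ℕ)+1) with h | h | h
      · rw [cls_dl_high (j := t) (by omega) (by omega), Pi.single_eq_of_ne]
        intro h'
        have := congrArg Fin.val h'
        simp at this; omega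
      · subst h
        rw [cls_dl_eq (by omega) (by omega)]
        have : (⟨(t:ℕ)+1, by omega⟩ : Fin (K+1)) = t.succ := Fin.ext (by simp)
        rw [this, Pi.single_eq_same]
      · rw [cls_dl_low (j := (t:ℕ)+1) (by omega) (by omega), Pi.single_eq_of_ne]
        intro h'
        have := congrArg Fin.val h'
        simp at this; omega
    rw [Finset.sum_congr rfl h2]
    simp
  rw [e0]
  simp only [e1]
  rw [← Finset.sum_mul, Fin.sum_univ_eq_sum_range (fun i => (2:ℂ)^i), geom_sum_eq (by norm_num)]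
  have : (2:ℂ)^K * (1/2)^K = 1 := by rw [← mul_pow]; norm_num
  linear_combination this

end final
/-! ### The spectral argument -/

lemma roots_bound {m : ℕ} (M : Matrix (Fin m) (Fin m) ℂ) {η : ℝ} (h0 : 0 < η) (h1 : η ≤ 1/2)
    (htr : M.trace = ((1 + η : ℝ) : ℂ)) :
    ∃ z ∈ M.charpoly.roots, z ≠ 1 ∧ η / (m + 1) ≤ ‖z‖ := by
  by_contra hcon
  push Not at hcon
  have hsum := Matrix.trace_eq_sum_roots_charpoly M
  set R := M.charpoly.roots with hR
  have hcard : Multiset.card R ≤ m := by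
    have := Polynomial.card_roots' M.charpoly
    rw [Matrix.charpoly_natDegree_eq_dim, Fintype.card_fin] at this
    exact this
  -- split the roots
  have hsplit : R.sum = (R.filter (fun z => z = 1)).sum + (R.filter (fun z => ¬ z = 1)).sum := by
    conv_lhs => rw [← Multiset.filter_add_not (fun z => z = 1) R]
    rw [Multiset.sum_add]
  have hone : (R.filter (fun z => z = 1)).sum = (Multiset.card (R.filter (fun z => z = 1)) : ℂ) := by
    have : R.filter (fun z => z = 1) = Multiset.replicate (Multiset.card (R.filter (fun z => z = 1))) 1 := by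
      apply Multiset.eq_replicate_card.2
      intro b hb
      exact (Multiset.mem_filter.1 hb).2
    conv_lhs => rw [this]
    rw [Multiset.sum_replicate]; simp
  have hrest : ‖(R.filter (fun z => ¬ z = 1)).sum‖ < η := by
    have h2 : ∀ z ∈ R.filter (fun z => ¬ z = 1), ‖z‖ ≤ η / (m + 1) := by
      intro z hz
      rw [Multiset.mem_filter] at hz
      exact (hcon z hz.1 hz.2).le
    have h3 : ‖(R.filter (fun z => ¬ z = 1)).sum‖ ≤ ((R.filter (fun z => ¬ z = 1)).map (fun z => ‖z‖)).sum :=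
      Multiset.le_sum_of_subadditive (fun z : ℂ => ‖z‖) norm_zero.le norm_add_le _
    have h4 : ((R.filter (fun z => ¬ z = 1)).map (fun z => ‖z‖)).sum ≤
        Multiset.card ((R.filter (fun z => ¬ z = 1)).map (fun z => ‖z‖)) • (η / (m + 1)) := by
      apply Multiset.sum_le_card_nsmul
      intro x hx
      rw [Multiset.mem_map] at hx
      obtain ⟨z, hz, rfl⟩ := hx
      exact h2 z hz
    rw [Multiset.card_map, nsmul_eq_mul] at h4
    have h5 : (Multiset.card (R.filter (fun z => ¬ z = 1)) : ℝ) ≤ m := by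
      exact_mod_cast le_trans (Multiset.card_le_card (Multiset.filter_le _ _)) hcard
    have h6 : (Multiset.card (R.filter (fun z => ¬ z = 1)) : ℝ) * (η / (m + 1)) ≤ m * (η / (m + 1)) := by
      gcongr
    have h7 : (m : ℝ) * (η / (m + 1)) < η := by
      have : (0:ℝ) < m + 1 := by positivity
      rw [mul_div_assoc', div_lt_iff₀ this]
      nlinarith
    linarith
  set k := Multiset.card (R.filter (fun z => z = 1)) with hk
  have hrest' : (R.filter (fun z => ¬ z = 1)).sum = ((1 + η - k : ℝ) : ℂ) := by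
    rw [htr, hsplit, hone] at hsum
    push_cast at hsum ⊢
    linear_combination -hsum
  rw [hrest', Complex.norm_real, Real.norm_eq_abs, abs_lt] at hrest
  obtain ⟨g1, g2⟩ := hrest
  have g3 : (1:ℝ) < k := by linarith
  have g4 : 1 < k := by exact_mod_cast g3
  have g5 : (2:ℝ) ≤ k := by exact_mod_cast g4
  linarith

lemma eta_bound (K : ℕ) (hK : 2 ≤ K) : 0 < (3/4 : ℝ)^K - (1/2)^K ∧ (3/4 : ℝ)^K - (1/2)^K ≤ 1/2 := by
  constructor
  · have : (1/2 : ℝ)^K < (3/4)^K := by
      apply pow_lt_pow_left₀ (by norm_num) (by norm_num) (by omega)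
    linarith
  · rcases Nat.lt_or_ge K 3 with h | h
    · have : K = 2 := by omega
      subst this; norm_num
    · have h1 : (3/4 : ℝ)^K ≤ (3/4)^3 := pow_le_pow_of_le_one (by norm_num) (by norm_num) h
      have h2 : (0:ℝ) < (1/2)^K := by positivity
      norm_num at h1
      linarith

/-- The quantitative form: an eigenvalue different from one of size at least
`((3/4)^K - (1/2)^K) / (K + 2)`. -/
lemma big_eigenvalue (K : ℕ) (hK : 2 ≤ K) :
    ∃ z : ℂ, z ≠ 1 ∧ IsEigenvalue (Phi K) z ∧ ((3/4 : ℝ)^K - (1/2)^K) / (K + 2) ≤ ‖z‖ := by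
  obtain ⟨h0, h1⟩ := eta_bound K hK
  set M := LinearMap.toMatrix' (N2 K) with hM
  have htr : M.trace = ((1 + ((3/4 : ℝ)^K - (1/2)^K) : ℝ) : ℂ) := by
    have h := trace_N2 (K := K)
    rw [LinearMap.trace_eq_matrix_trace ℂ (Pi.basisFun ℂ (Fin (K+1))),
      LinearMap.toMatrix_eq_toMatrix'] at h
    rw [hM, h]
    push_cast; ring
  obtain ⟨z, hz, hz1, hzn⟩ := roots_bound M h0 h1 htr
  refine ⟨z, hz1, ?_, ?_⟩
  · -- z is an eigenvalue of N2, hence of Phi
    by_contra hne
    have hinj : Function.Injective (PhiL K - z • (LinearMap.id : Matrix (Pr K × Pr K) (Pr K × Pr K) ℂ →ₗ[ℂ]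
        Matrix (Pr K × Pr K) (Pr K × Pr K) ℂ)) := by
      rw [← LinearMap.ker_eq_bot, LinearMap.ker_eq_bot']
      intro Y hY
      by_contra hY0
      apply hne
      refine ⟨Y, hY0, ?_⟩
      rw [LinearMap.sub_apply, sub_eq_zero] at hY
      exact hY
    have hsurj : Function.Surjective (PhiL K - z • (LinearMap.id : Matrix (Pr K × Pr K) (Pr K × Pr K) ℂ →ₗ[ℂ]
        Matrix (Pr K × Pr K) (Pr K × Pr K) ℂ)) := LinearMap.injective_iff_surjective.1 hinj
    have hsurj2 : Function.Surjective (N2 K - z • (LinearMap.id : (Fin (K+1) → ℂ) →ₗ[ℂ] (Fin (K+1) → ℂ))) := by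
      intro w
      obtain ⟨Y, hY⟩ := tau_surj hK w
      obtain ⟨X, hX⟩ := hsurj Y
      refine ⟨tau K X, ?_⟩
      rw [← hY, ← hX]
      rw [LinearMap.sub_apply, LinearMap.sub_apply, map_sub]
      congr 1
      · exact (tau_Phi X).symm
      · simp
    have hinj2 : Function.Injective (N2 K - z • (LinearMap.id : (Fin (K+1) → ℂ) →ₗ[ℂ] (Fin (K+1) → ℂ))) := LinearMap.injective_iff_surjective.2 hsurj2
    have hroot : (N2 K).charpoly.IsRoot z := by
      have h2 := Polynomial.isRoot_of_mem_roots hz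
      rw [hM, LinearMap.toMatrix'] at h2
      have : M.charpoly = (N2 K).charpoly := by
        rw [hM, ← LinearMap.toMatrix_eq_toMatrix', LinearMap.charpoly_toMatrix]
      rw [← this]; exact Polynomial.isRoot_of_mem_roots hz
    rw [← Module.End.hasEigenvalue_iff_isRoot_charpoly] at hroot
    obtain ⟨v, hv⟩ := hroot.exists_hasEigenvector
    have hv2 := hv.apply_eq_smul
    apply hv.2
    apply hinj2
    rw [LinearMap.sub_apply, map_zero, hv2]
    simp
  · refine le_trans (le_of_eq ?_) hzn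
    push_cast
    ring_nf

/-- **The random unitary butterfly is not an `O(1/n)`-approximate `2`-design on `Λ²`.** -/
theorem main : (∀ K : ℕ, 2 ≤ K →
    ∃ z : ℂ, z ≠ 1 ∧ IsEigenvalue (Phi K) z ∧ ((3/4 : ℝ)^K - (1/2)^K) / (K + 2) ≤ ‖z‖) ∧
    ¬ DesignProperty := by
  refine ⟨big_eigenvalue, ?_⟩
  rintro ⟨C, hC, K₀, h⟩
  -- choose `K` large
  have hlim : Filter.Tendsto (fun K : ℕ => ((K:ℝ) + 2) * (2/3 : ℝ)^K) Filter.atTop (nhds 0) := by
    have h1 := tendsto_self_mul_const_pow_of_lt_one (r := (2/3 : ℝ)) (by norm_num) (by norm_num)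
    have h2 := (tendsto_pow_atTop_nhds_zero_of_lt_one (r := (2/3 : ℝ)) (by norm_num) (by norm_num)).const_mul 2
    have h3 := h1.add h2
    simp only [mul_zero, add_zero] at h3
    refine h3.congr (fun n => by ring)
  have hlim2 : Filter.Tendsto (fun K : ℕ => (2/3 : ℝ)^K) Filter.atTop (nhds 0) :=
    tendsto_pow_atTop_nhds_zero_of_lt_one (by norm_num) (by norm_num)
  have hev : ∀ᶠ K : ℕ in Filter.atTop, C * (((K:ℝ) + 2) * (2/3 : ℝ)^K) + (2/3 : ℝ)^K < 1 := by
    have := (hlim.const_mul C).add hlim2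
    simp only [mul_zero, add_zero] at this
    exact this.eventually_lt_const one_pos
  obtain ⟨K, hK⟩ := (hev.and ((Filter.eventually_ge_atTop K₀).and (Filter.eventually_ge_atTop 2))).exists
  obtain ⟨hK1, hK2, hK3⟩ := hK
  obtain ⟨z, hz1, hz2, hz3⟩ := big_eigenvalue K hK3
  have h4 := (h K hK2).2 z hz2 hz1
  have h5 : ((3/4 : ℝ)^K - (1/2)^K) / (K + 2) ≤ C / 2^K := le_trans hz3 h4
  rw [div_le_div_iff₀ (by positivity) (by positivity)] at h5
  have e1 : (3/4 : ℝ)^K * 2^K = (3/2)^K := by rw [← mul_pow]; norm_num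
  have e2 : (1/2 : ℝ)^K * 2^K = 1 := by rw [← mul_pow]; norm_num
  have e3 : (3/2 : ℝ)^K * (2/3)^K = 1 := by rw [← mul_pow]; norm_num
  have h6 : (3/2 : ℝ)^K ≤ C * (K + 2) + 1 := by nlinarith
  have h7 : (0:ℝ) < (2/3)^K := by positivity
  have h8 := mul_le_mul_of_nonneg_right h6 h7.le
  rw [e3] at h8
  linarith


end Pool.Agent.H994.Butterfly
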